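import Mathlib

/-!
# Walsh functions and averages over finite levels
-/

set_option autoImplicit false

open Finset

namespace Pool.Agent.X23.WL

/-- The points of the Walsh group `∏ ℤ₂`. -/
abbrev Pt : Type := ℕ → Bool

/-- `(-1)^b` -/
def sg (b : Bool) : ℝ := if b then -1 else 1

/-- The Walsh functions `w_i(x) = ∏_j (-1)^{i_j x_j}`, `i_j` the binary digits of `i`. -/
noncomputable def W (i : ℕ) (x : Pt) : ℝ := ∏ j ∈ range i, if i.testBit j && x j then -1 else 1

/-- drop the first coordinate -/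
def tl (x : Pt) : Pt := fun j => x (j + 1)

/-- add a first coordinate -/
def cons (b : Bool) (x : Pt) : Pt := fun j => Nat.casesOn j b x

/-- the group operation -/
def xr (x t : Pt) : Pt := fun j => xor (x j) (t j)

theorem cons_zero (b : Bool) (x : Pt) : cons b x 0 = b := rfl

theorem cons_succ (b : Bool) (x : Pt) (j : ℕ) : cons b x (j + 1) = x j := rfl

theorem tl_cons (b : Bool) (x : Pt) : tl (cons b x) = x := rfl

theorem cons_tl (x : Pt) : cons (x 0) (tl x) = x := by
  funext j
  cases j <;> rfl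

theorem tl_xr (x t : Pt) : tl (xr x t) = xr (tl x) (tl t) := rfl

theorem sg_true : sg true = -1 := rfl

theorem sg_false : sg false = 1 := rfl

theorem sg_xor (a b : Bool) : sg (xor a b) = sg a * sg b := by
  cases a <;> cases b <;> norm_num [sg]

theorem sg_mul_self (a : Bool) : sg a * sg a = 1 := by cases a <;> norm_num [sg]

theorem abs_sg (a : Bool) : |sg a| = 1 := by cases a <;> norm_num [sg]

theorem prod_range_bits {i m n : ℕ} (hm : i < 2 ^ m) (hn : i < 2 ^ n) (x : Pt) :
    (∏ j ∈ range m, if i.testBit j && x j then (-1 : ℝ) else 1) =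
      ∏ j ∈ range n, if i.testBit j && x j then (-1 : ℝ) else 1 := by
  have key : ∀ a b : ℕ, a ≤ b → i < 2 ^ a →
      (∏ j ∈ range a, if i.testBit j && x j then (-1 : ℝ) else 1) =
        ∏ j ∈ range b, if i.testBit j && x j then (-1 : ℝ) else 1 := by
    intro a b hab ha
    apply Finset.prod_subset (range_subset_range.2 hab)
    intro j _ hj
    rw [mem_range, not_lt] at hj
    have : i.testBit j = false :=
      Nat.testBit_lt_two_pow (lt_of_lt_of_le ha (Nat.pow_le_pow_right (by norm_num) hj))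
    rw [this]
    simp
  rcases le_total m n with h | h
  · exact key m n h hm
  · exact (key n m h hn).symm

theorem W_eq {i n : ℕ} (hn : i < 2 ^ n) (x : Pt) :
    W i x = ∏ j ∈ range n, if i.testBit j && x j then (-1 : ℝ) else 1 :=
  prod_range_bits Nat.lt_two_pow_self hn x

theorem W_zero (x : Pt) : W 0 x = 1 := by simp [W]

theorem W_two_mul (i : ℕ) (x : Pt) : W (2 * i) x = W i (tl x) := by
  have h1 : i < 2 ^ i := Nat.lt_two_pow_self
  have h2 : 2 * i < 2 ^ (i + 1) := by rw [pow_succ]; omega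
  rw [W_eq h2, W_eq h1, prod_range_succ']
  have h0 : (2 * i).testBit 0 = false := by simp
  rw [h0]
  simp only [Bool.false_and, Bool.false_eq_true, if_false, mul_one]
  refine Finset.prod_congr rfl fun j _ => ?_
  have h3 : (2 * i).testBit (j + 1) = i.testBit j := by
    rw [Nat.testBit_succ]
    congr 1
    omega
  rw [h3]
  rfl

theorem W_two_mul_add (i : ℕ) (x : Pt) : W (2 * i + 1) x = sg (x 0) * W i (tl x) := by
  have h1 : i < 2 ^ i := Nat.lt_two_pow_self
  have h2 : 2 * i + 1 < 2 ^ (i + 1) := by rw [pow_succ]; omega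
  rw [W_eq h2, W_eq h1, prod_range_succ', mul_comm]
  have h0 : (2 * i + 1).testBit 0 = true := by simp
  rw [h0]
  congr 1
  refine Finset.prod_congr rfl fun j _ => ?_
  have h3 : (2 * i + 1).testBit (j + 1) = i.testBit j := by
    rw [Nat.testBit_succ]
    congr 1
    omega
  rw [h3]
  rfl

theorem W_xr (i : ℕ) (x t : Pt) : W i (xr x t) = W i x * W i t := by
  unfold W
  rw [← Finset.prod_mul_distrib]
  refine Finset.prod_congr rfl fun j _ => ?_
  unfold xr
  cases i.testBit j <;> cases x j <;> cases t j <;> norm_num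

theorem W_mul_self (i : ℕ) (x : Pt) : W i x * W i x = 1 := by
  unfold W
  rw [← Finset.prod_mul_distrib]
  apply Finset.prod_eq_one
  intro j _
  split_ifs <;> norm_num

theorem abs_W (i : ℕ) (x : Pt) : |W i x| = 1 := by
  have h := W_mul_self i x
  have h1 : |W i x| * |W i x| = 1 := by rw [← abs_mul, h, abs_one]
  nlinarith [abs_nonneg (W i x)]

theorem even_odd (i : ℕ) : ∃ k, i = 2 * k ∨ i = 2 * k + 1 := ⟨i / 2, by omega⟩

theorem W_top (n : ℕ) : ∀ (i : ℕ) (x : Pt), i < 2 ^ n → W (2 ^ n + i) x = sg (x n) * W i x := by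
  induction n with
  | zero =>
    intro i x hi
    have : i = 0 := by simpa using hi
    subst this
    have := W_two_mul_add 0 x
    simpa [W_zero] using this
  | succ n ih =>
    intro i x hi
    rw [pow_succ] at hi
    obtain ⟨k, hk | hk⟩ := even_odd i
    · have e : 2 ^ (n + 1) + i = 2 * (2 ^ n + k) := by rw [pow_succ]; omega
      rw [e, W_two_mul, ih k (tl x) (by omega), hk, W_two_mul]
      rfl
    · have e : 2 ^ (n + 1) + i = 2 * (2 ^ n + k) + 1 := by rw [pow_succ]; omega
      rw [e, W_two_mul_add, ih k (tl x) (by omega), hk, W_two_mul_add]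
      change sg (x 0) * (sg (x (n + 1)) * W k (tl x)) = _
      ring

theorem W_two_pow (n : ℕ) (x : Pt) : W (2 ^ n) x = sg (x n) := by
  have := W_top n 0 x (by positivity)
  rwa [add_zero, W_zero, mul_one] at this

theorem W_rev (n : ℕ) : ∀ (v : ℕ) (x : Pt), v < 2 ^ n →
    W (2 ^ n - 1 - v) x = W (2 ^ n - 1) x * W v x := by
  induction n with
  | zero =>
    intro v x hv
    have : v = 0 := by simpa using hv
    subst this
    simp [W_zero]
  | succ n ih =>
    intro v x hv
    rw [pow_succ] at hv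
    have hp : 0 < 2 ^ n := by positivity
    have e0 : 2 ^ (n + 1) - 1 = 2 * (2 ^ n - 1) + 1 := by rw [pow_succ]; omega
    obtain ⟨k, hk | hk⟩ := even_odd v
    · have e : 2 ^ (n + 1) - 1 - v = 2 * (2 ^ n - 1 - k) + 1 := by rw [pow_succ]; omega
      rw [e, e0, W_two_mul_add, W_two_mul_add, ih k (tl x) (by omega), hk, W_two_mul]
      ring
    · have e : 2 ^ (n + 1) - 1 - v = 2 * (2 ^ n - 1 - k) := by rw [pow_succ]; omega
      rw [e, e0, W_two_mul, W_two_mul_add, ih k (tl x) (by omega), hk, W_two_mul_add]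
      have := sg_mul_self (x 0)
      calc W (2 ^ n - 1) (tl x) * W k (tl x) =
            (sg (x 0) * sg (x 0)) * (W (2 ^ n - 1) (tl x) * W k (tl x)) := by rw [this, one_mul]
        _ = _ := by ring

/-- The Dirichlet kernels. -/
noncomputable def D (n : ℕ) (x : Pt) : ℝ := ∑ i ∈ range n, W i x

theorem D_zero (x : Pt) : D 0 x = 0 := by simp [D]

theorem D_one (x : Pt) : D 1 x = 1 := by simp [D, W_zero]

theorem D_succ (n : ℕ) (x : Pt) : D (n + 1) x = D n x + W n x := by
  unfold D
  rw [sum_range_succ]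

theorem sum_two_mul {E : Type*} [AddCommMonoid E] (g : ℕ → E) (m : ℕ) :
    ∑ i ∈ range (2 * m), g i = ∑ i ∈ range m, (g (2 * i) + g (2 * i + 1)) := by
  induction m with
  | zero => simp
  | succ m ih =>
    rw [show 2 * (m + 1) = 2 * m + 1 + 1 by ring, sum_range_succ, sum_range_succ, ih,
      sum_range_succ, add_assoc]

theorem D_two_mul (n : ℕ) (x : Pt) : D (2 * n) x = (1 + sg (x 0)) * D n (tl x) := by
  unfold D
  rw [sum_two_mul, Finset.mul_sum]
  refine Finset.sum_congr rfl fun i _ => ?_
  rw [W_two_mul, W_two_mul_add]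
  ring

theorem D_two_mul_add (n : ℕ) (x : Pt) :
    D (2 * n + 1) x = (1 + sg (x 0)) * D n (tl x) + W n (tl x) := by
  rw [D_succ, D_two_mul, W_two_mul]

theorem D_top {n r : ℕ} (hr : r ≤ 2 ^ n) (x : Pt) :
    D (2 ^ n + r) x = D (2 ^ n) x + sg (x n) * D r x := by
  induction r with
  | zero => simp [D_zero]
  | succ r ih =>
    rw [← add_assoc, D_succ, ih (by omega), W_top n r x (by omega), D_succ]
    ring

theorem D_rev {n v : ℕ} (hv : v ≤ 2 ^ n) (x : Pt) :
    D (2 ^ n - v) x = D (2 ^ n) x - W (2 ^ n - 1) x * D v x := by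
  induction v with
  | zero => simp [D_zero]
  | succ v ih =>
    have h1 := ih (by omega)
    have e : 2 ^ n - v = 2 ^ n - (v + 1) + 1 := by omega
    rw [e, D_succ, show 2 ^ n - (v + 1) = 2 ^ n - 1 - v by omega, W_rev n v x (by omega)] at h1
    rw [show 2 ^ n - (v + 1) = 2 ^ n - 1 - v by omega, D_succ]
    linarith

theorem D_two_pow_succ (n : ℕ) (x : Pt) :
    D (2 ^ (n + 1)) x = (1 + sg (x 0)) * D (2 ^ n) (tl x) := by
  rw [pow_succ, mul_comm, D_two_mul]

/-- `D_{2^n}` vanishes outside the cylinder, so Walsh functions of index `< 2^n` act trivially. -/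
theorem W_mul_D (n : ℕ) : ∀ (i : ℕ) (x : Pt), i < 2 ^ n → W i x * D (2 ^ n) x = D (2 ^ n) x := by
  induction n with
  | zero =>
    intro i x hi
    have : i = 0 := by simpa using hi
    subst this
    rw [W_zero, one_mul]
  | succ n ih =>
    intro i x hi
    rw [pow_succ] at hi
    rw [D_two_pow_succ]
    obtain ⟨k, hk | hk⟩ := even_odd i
    · rw [hk, W_two_mul]
      have := ih k (tl x) (by omega)
      calc _ = (1 + sg (x 0)) * (W k (tl x) * D (2 ^ n) (tl x)) := by ring
        _ = _ := by rw [this]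
    · rw [hk, W_two_mul_add]
      have := ih k (tl x) (by omega)
      have h2 := sg_mul_self (x 0)
      calc _ = (sg (x 0) + sg (x 0) * sg (x 0)) * (W k (tl x) * D (2 ^ n) (tl x)) := by ring
        _ = _ := by rw [this, h2]; ring

section av

variable {E : Type*} [NormedAddCommGroup E] [NormedSpace ℝ E]

/-- The average over the `2^n` points of level `n`. -/
noncomputable def av (n : ℕ) (F : Pt → E) : E :=
  ((2 : ℝ) ^ n)⁻¹ • ∑ a ∈ range (2 ^ n), F (Nat.testBit a)

theorem testBit_two_mul (a : ℕ) : Nat.testBit (2 * a) = cons false (Nat.testBit a) := by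
  funext j
  cases j with
  | zero => simp [cons]
  | succ j =>
    rw [cons_succ, Nat.testBit_succ]
    congr 1
    omega

theorem testBit_two_mul_add (a : ℕ) : Nat.testBit (2 * a + 1) = cons true (Nat.testBit a) := by
  funext j
  cases j with
  | zero => simp [cons]
  | succ j =>
    rw [cons_succ, Nat.testBit_succ]
    congr 1
    omega

theorem av_succ (n : ℕ) (F : Pt → E) :
    av (n + 1) F = (1 / 2 : ℝ) • (av n (fun x => F (cons false x)) +
      av n (fun x => F (cons true x))) := by
  unfold av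
  rw [show (2 : ℕ) ^ (n + 1) = 2 * 2 ^ n from pow_succ' 2 n, sum_two_mul, ← smul_add,
    ← sum_add_distrib, smul_smul]
  congr 1
  · rw [pow_succ]
    field_simp
  · refine Finset.sum_congr rfl fun a _ => ?_
    rw [testBit_two_mul, testBit_two_mul_add]

theorem av_zero (F : Pt → E) : av 0 F = F (Nat.testBit 0) := by
  simp [av]

theorem av_add (n : ℕ) (F G : Pt → E) : av n (fun x => F x + G x) = av n F + av n G := by
  unfold av
  rw [sum_add_distrib, smul_add]

theorem av_sub (n : ℕ) (F G : Pt → E) : av n (fun x => F x - G x) = av n F - av n G := by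
  unfold av
  rw [sum_sub_distrib, smul_sub]

theorem av_smul (n : ℕ) (c : ℝ) (F : Pt → E) : av n (fun x => c • F x) = c • av n F := by
  unfold av
  rw [← Finset.smul_sum, smul_comm]

theorem av_mul (n : ℕ) (c : ℝ) (F : Pt → ℝ) : av n (fun x => c * F x) = c * av n F :=
  av_smul n c F

theorem av_sum {ι : Type*} (n : ℕ) (s : Finset ι) (F : ι → Pt → E) :
    av n (fun x => ∑ i ∈ s, F i x) = ∑ i ∈ s, av n (F i) := by
  unfold av
  rw [sum_comm, Finset.smul_sum]

theorem av_const (n : ℕ) (c : E) : av n (fun _ => c) = c := by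
  unfold av
  rw [sum_const, card_range, ← Nat.cast_smul_eq_nsmul ℝ, smul_smul]
  push_cast
  rw [inv_mul_cancel₀ (by positivity), one_smul]

theorem av_mono {n : ℕ} {F G : Pt → ℝ} (h : ∀ x, F x ≤ G x) : av n F ≤ av n G := by
  unfold av
  rw [smul_eq_mul, smul_eq_mul]
  gcongr
  exact h _

theorem av_nonneg {n : ℕ} {F : Pt → ℝ} (h : ∀ x, 0 ≤ F x) : 0 ≤ av n F := by
  unfold av
  rw [smul_eq_mul]
  exact mul_nonneg (by positivity) (Finset.sum_nonneg fun a _ => h _)

theorem norm_av_le (n : ℕ) (F : Pt → E) : ‖av n F‖ ≤ av n (fun x => ‖F x‖) := by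
  unfold av
  rw [norm_smul, norm_inv, norm_pow, Real.norm_ofNat, smul_eq_mul]
  gcongr
  exact norm_sum_le _ _

/-- `F` depends on the first `n` coordinates only. -/
def Lev {A : Type*} (n : ℕ) (F : Pt → A) : Prop := ∀ x y : Pt, (∀ j < n, x j = y j) → F x = F y

theorem Lev.mono {A : Type*} {m n : ℕ} {F : Pt → A} (h : Lev m F) (hmn : m ≤ n) : Lev n F :=
  fun x y hxy => h x y fun j hj => hxy j (lt_of_lt_of_le hj hmn)

theorem Lev.cons {A : Type*} {n : ℕ} {F : Pt → A} (h : Lev (n + 1) F) (b : Bool) :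
    Lev n (fun x => F (cons b x)) := by
  intro x y hxy
  apply h
  intro j hj
  cases j with
  | zero => rfl
  | succ j => exact hxy j (by omega)

theorem av_lev (n : ℕ) : ∀ (M : ℕ) (F : Pt → E), Lev n F → n ≤ M → av M F = av n F := by
  induction n with
  | zero =>
    intro M F hF _
    have : F = fun _ => F (Nat.testBit 0) := by
      funext x
      exact hF x _ fun j hj => absurd hj (by omega)
    rw [this, av_const, av_const]
  | succ n ih =>
    intro M F hF hM
    obtain ⟨M, rfl⟩ : ∃ M', M = M' + 1 := ⟨M - 1, by omega⟩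
    rw [av_succ, av_succ, ih M _ (hF.cons false) (by omega), ih M _ (hF.cons true) (by omega)]

theorem W_lev {i n : ℕ} (h : i < 2 ^ n) : Lev n (W i) := by
  intro x y hxy
  rw [W_eq h, W_eq h]
  refine Finset.prod_congr rfl fun j hj => ?_
  rw [hxy j (mem_range.1 hj)]

theorem D_lev {r n : ℕ} (h : r ≤ 2 ^ n) : Lev n (D r) := by
  intro x y hxy
  unfold D
  refine Finset.sum_congr rfl fun i hi => ?_
  exact W_lev (lt_of_lt_of_le (mem_range.1 hi) h) x y hxy

theorem xr_testBit (a b : ℕ) : xr (Nat.testBit a) (Nat.testBit b) = Nat.testBit (a ^^^ b) := by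
  funext j
  rw [Nat.testBit_xor]
  rfl

/-- translation invariance -/
theorem av_xr (n b : ℕ) (hb : b < 2 ^ n) (F : Pt → E) :
    av n (fun x => F (xr x (Nat.testBit b))) = av n F := by
  unfold av
  congr 1
  apply Finset.sum_nbij' (fun a => a ^^^ b) (fun a => a ^^^ b)
  · intro a ha
    exact mem_range.2 (Nat.xor_lt_two_pow (mem_range.1 ha) hb)
  · intro a ha
    exact mem_range.2 (Nat.xor_lt_two_pow (mem_range.1 ha) hb)
  · intro a _
    rw [Nat.xor_assoc, Nat.xor_self, Nat.xor_zero]
  · intro a _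
    rw [Nat.xor_assoc, Nat.xor_self, Nat.xor_zero]
  · intro a _
    change F (xr _ _) = _
    rw [xr_testBit]

end av

end Pool.Agent.X23.WL
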