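import Pool.Agent.X23.WL.Ker

/-!
# Convolution on finite levels
-/

set_option autoImplicit false

open Finset

namespace Pool.Agent.X23.WL

variable {E : Type*} [NormedAddCommGroup E] [NormedSpace ℝ E]

/-- The convolution on level `n`. -/
noncomputable def cv (n : ℕ) (K : Pt → ℝ) (g : Pt → E) (x : Pt) : E :=
  av n (fun t => K (xr x t) • g t)

theorem sum_rpow_le {p : ℝ} (hp : 0 < p) (hp1 : p ≤ 1) {ι : Type*} (s : Finset ι) (z : ι → ℝ)
    (hz : ∀ i ∈ s, 0 ≤ z i) : (∑ i ∈ s, z i) ^ p ≤ ∑ i ∈ s, z i ^ p := by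
  classical
  induction s using Finset.induction_on with
  | empty => simp [Real.zero_rpow hp.ne']
  | insert i s hi ih =>
    rw [sum_insert hi, sum_insert hi]
    have h1 := ih fun j hj => hz j (mem_insert_of_mem hj)
    have h2 := Real.rpow_add_le_add_rpow (hz i (mem_insert_self i s))
      (Finset.sum_nonneg fun j hj => hz j (mem_insert_of_mem hj)) hp.le hp1
    linarith

theorem cv_p {p : ℝ} (hp : 0 < p) (hp1 : p ≤ 1) (n : ℕ) (K : Pt → ℝ) (g : Pt → E) :
    av n (fun x => ‖cv n K g x‖ ^ p) ≤
      ((2 : ℝ) ^ n) ^ (1 - p) * av n (fun x => |K x| ^ p) * av n (fun x => ‖g x‖ ^ p) := by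
  have h1 : ∀ x, ‖cv n K g x‖ ^ p ≤ ∑ a ∈ range (2 ^ n), (((2 : ℝ) ^ n)⁻¹) ^ p *
      ‖g (Nat.testBit a)‖ ^ p * |K (xr x (Nat.testBit a))| ^ p := by
    intro x
    have e1 : ‖cv n K g x‖ ≤ ∑ a ∈ range (2 ^ n), ((2 : ℝ) ^ n)⁻¹ *
        (|K (xr x (Nat.testBit a))| * ‖g (Nat.testBit a)‖) := by
      refine (norm_av_le n _).trans (le_of_eq ?_)
      unfold av
      rw [smul_eq_mul, Finset.mul_sum]
      refine Finset.sum_congr rfl fun a _ => ?_
      beta_reduce
      rw [norm_smul, Real.norm_eq_abs]
    refine (Real.rpow_le_rpow (norm_nonneg _) e1 hp.le).trans ?_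
    refine (sum_rpow_le hp hp1 _ _ fun a _ => by positivity).trans (le_of_eq ?_)
    refine Finset.sum_congr rfl fun a _ => ?_
    rw [Real.mul_rpow (by positivity) (by positivity), Real.mul_rpow (by positivity) (by positivity)]
    ring
  refine (av_mono h1).trans (le_of_eq ?_)
  rw [av_sum]
  have h2 : ∀ a ∈ range (2 ^ n), av n (fun x => (((2 : ℝ) ^ n)⁻¹) ^ p *
      ‖g (Nat.testBit a)‖ ^ p * |K (xr x (Nat.testBit a))| ^ p) =
      (((2 : ℝ) ^ n)⁻¹) ^ p * ‖g (Nat.testBit a)‖ ^ p * av n (fun x => |K x| ^ p) := by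
    intro a ha
    rw [av_mul, av_xr n a (mem_range.1 ha) (fun x => |K x| ^ p)]
  rw [Finset.sum_congr rfl h2, ← Finset.sum_mul, ← Finset.mul_sum]
  have h3 : ∑ a ∈ range (2 ^ n), ‖g (Nat.testBit a)‖ ^ p =
      (2 : ℝ) ^ n * av n (fun x => ‖g x‖ ^ p) := by
    unfold av
    rw [smul_eq_mul, mul_inv_cancel_left₀ (by positivity)]
  have h4 : (((2 : ℝ) ^ n)⁻¹) ^ p * (2 : ℝ) ^ n = ((2 : ℝ) ^ n) ^ (1 - p) := by
    rw [Real.rpow_sub (by positivity), Real.rpow_one, Real.inv_rpow (by positivity)]
    ring
  rw [h3, ← h4]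
  ring

theorem cv_one (n : ℕ) (K : Pt → ℝ) (g : Pt → E) :
    av n (fun x => ‖cv n K g x‖) ≤ av n (fun x => |K x|) * av n (fun x => ‖g x‖) := by
  have := cv_p one_pos le_rfl n K g
  simpa using this

theorem cv_add_right (n : ℕ) (K : Pt → ℝ) (g h : Pt → E) (x : Pt) :
    cv n K (fun t => g t + h t) x = cv n K g x + cv n K h x := by
  unfold cv
  rw [← av_add]
  congr 1
  funext t
  rw [smul_add]

theorem cv_sub_right (n : ℕ) (K : Pt → ℝ) (g h : Pt → E) (x : Pt) :
    cv n K (fun t => g t - h t) x = cv n K g x - cv n K h x := by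
  unfold cv
  rw [← av_sub]
  congr 1
  funext t
  rw [smul_sub]

theorem cv_add_left (n : ℕ) (K L : Pt → ℝ) (g : Pt → E) (x : Pt) :
    cv n (fun t => K t + L t) g x = cv n K g x + cv n L g x := by
  unfold cv
  rw [← av_add]
  congr 1
  funext t
  rw [add_smul]

theorem cv_smul_left (n : ℕ) (c : ℝ) (K : Pt → ℝ) (g : Pt → E) (x : Pt) :
    cv n (fun t => c * K t) g x = c • cv n K g x := by
  unfold cv
  rw [← av_smul]
  congr 1
  funext t
  rw [mul_smul]

theorem cv_sum_left {ι : Type*} (s : Finset ι) (n : ℕ) (K : ι → Pt → ℝ) (g : Pt → E) (x : Pt) :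
    cv n (fun t => ∑ i ∈ s, K i t) g x = ∑ i ∈ s, cv n (K i) g x := by
  unfold cv
  rw [← av_sum]
  congr 1
  funext t
  rw [Finset.sum_smul]

/-- Fourier coefficients on level `n` -/
noncomputable def four (n : ℕ) (g : Pt → E) (i : ℕ) : E := av n (fun t => W i t • g t)

theorem cv_W (n i : ℕ) (g : Pt → E) (x : Pt) : cv n (W i) g x = W i x • four n g i := by
  unfold cv four
  rw [← av_smul]
  congr 1
  funext t
  rw [W_xr, mul_smul]

theorem four_zero (n : ℕ) : ∀ (M i : ℕ) (g : Pt → E), Lev n g → 2 ^ n ≤ i → i < 2 ^ M →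
    four M g i = 0 := by
  have key0 : ∀ (M i : ℕ) (c : E), 1 ≤ i → i < 2 ^ M → four M (fun _ => c) i = 0 := by
    intro M
    induction M with
    | zero =>
      intro i c h1 h2
      rw [pow_zero] at h2
      omega
    | succ M ih =>
      intro i c h1 h2
      rw [pow_succ] at h2
      unfold four
      rw [av_succ]
      obtain ⟨k, hk | hk⟩ := even_odd i
      · have h3 := ih k c (by omega) (by omega)
        unfold four at h3
        simp only [hk, W_two_mul, tl_cons, h3]
        simp
      · simp only [hk, W_two_mul_add, tl_cons, cons_zero, sg_true, sg_false, one_mul, neg_mul,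
          neg_smul]
        have e : av M (fun x => -(W k x • c)) = -av M (fun x => W k x • c) := by
          have := av_smul M (-1) (fun x => W k x • c)
          simpa using this
        rw [e, add_neg_cancel, smul_zero]
  induction n with
  | zero =>
    intro M i g hg h1 h2
    have : g = fun _ => g (Nat.testBit 0) := by
      funext x
      exact hg x _ fun j hj => absurd hj (by omega)
    rw [this]
    exact key0 M i _ (by simpa using h1) h2
  | succ n ih =>
    intro M i g hg h1 h2
    obtain ⟨M, rfl⟩ : ∃ M', M = M' + 1 := by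
      refine ⟨M - 1, ?_⟩
      rcases Nat.eq_zero_or_pos M with h | h
      · subst h
        have : 0 < 2 ^ (n + 1) := by positivity
        rw [pow_zero] at h2
        omega
      · omega
    rw [pow_succ] at h1 h2
    unfold four
    rw [av_succ]
    obtain ⟨k, hk | hk⟩ := even_odd i
    · have h3 := ih M k _ (hg.cons false) (by omega) (by omega)
      have h4 := ih M k _ (hg.cons true) (by omega) (by omega)
      unfold four at h3 h4
      simp only [hk, W_two_mul, tl_cons, h3, h4]
      simp
    · have h3 := ih M k _ (hg.cons false) (by omega) (by omega)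
      have h4 := ih M k _ (hg.cons true) (by omega) (by omega)
      unfold four at h3 h4
      simp only [hk, W_two_mul_add, tl_cons, cons_zero, sg_true, sg_false, one_mul, neg_mul,
        neg_smul]
      have e : av M (fun x => -(W k x • g (cons true x))) =
          -av M (fun x => W k x • g (cons true x)) := by
        have := av_smul M (-1) (fun x => W k x • g (cons true x))
        simpa using this
      rw [e, h3, h4]
      simp

theorem cv_D_two_pow (n : ℕ) : ∀ (M : ℕ) (g : Pt → E) (x : Pt), Lev n g → n ≤ M →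
    cv M (D (2 ^ n)) g x = g x := by
  induction n with
  | zero =>
    intro M g x hg _
    have : g = fun _ => g x := by
      funext y
      exact hg y _ fun j hj => absurd hj (by omega)
    rw [this]
    unfold cv
    simp only [pow_zero, D_one, one_smul]
    rw [av_const]
  | succ n ih =>
    intro M g x hg hM
    obtain ⟨M, rfl⟩ : ∃ M', M = M' + 1 := ⟨M - 1, by omega⟩
    unfold cv
    rw [av_succ]
    have e : ∀ (b : Bool), av M (fun t => D (2 ^ (n + 1)) (xr x (cons b t)) • g (cons b t)) =
        (1 + sg (xor (x 0) b)) • g (cons b (tl x)) := by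
      intro b
      have h1 := ih M (fun t => g (cons b t)) (tl x) (hg.cons b) (by omega)
      unfold cv at h1
      rw [← h1, ← av_smul]
      congr 1
      funext t
      rw [D_two_pow_succ, tl_xr, tl_cons, mul_smul]
      rfl
    rw [e, e]
    conv_rhs => rw [← cons_tl x]
    cases x 0
    · rw [Bool.xor_false, Bool.false_xor, sg_false, sg_true]
      rw [add_neg_cancel, zero_smul, add_zero, smul_smul]
      norm_num
    · rw [Bool.xor_false, Bool.xor_self, sg_false, sg_true]
      rw [add_neg_cancel, zero_smul, zero_add, smul_smul]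
      norm_num

theorem cv_D_ge {n M r : ℕ} {g : Pt → E} (hg : Lev n g) (hr : 2 ^ n ≤ r) (hr2 : r ≤ 2 ^ M)
    (x : Pt) : cv M (D r) g x = g x := by
  have hnM : n ≤ M := by
    by_contra h
    push Not at h
    have := Nat.pow_lt_pow_right (a := 2) (by norm_num) h
    omega
  obtain ⟨d, rfl⟩ := Nat.exists_eq_add_of_le hr
  clear hr
  induction d with
  | zero => exact cv_D_two_pow n M g x hg hnM
  | succ d ih =>
    have h1 := ih (by omega)
    have e : D (2 ^ n + (d + 1)) = fun t => D (2 ^ n + d) t + W (2 ^ n + d) t := by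
      funext t
      rw [← add_assoc, D_succ]
    rw [e, cv_add_left, h1, cv_W, four_zero n M (2 ^ n + d) g hg (by omega) (by omega), smul_zero,
      add_zero]

theorem av_cv_lev {n M : ℕ} (hnM : n ≤ M) {K : Pt → ℝ} {g : Pt → E} (hK : Lev n K)
    (hg : Lev n g) (x : Pt) : cv M K g x = cv n K g x := by
  unfold cv
  apply av_lev n M _ _ hnM
  intro s t hst
  have h1 : K (xr x s) = K (xr x t) := by
    apply hK
    intro j hj
    unfold xr
    rw [hst j hj]
  beta_reduce
  rw [h1, hg s t hst]

theorem cv_lev {n : ℕ} {K : Pt → ℝ} {g : Pt → E} (hK : Lev n K) : Lev n (cv n K g) := by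
  intro x y hxy
  unfold cv
  congr 1
  funext t
  have h1 : K (xr x t) = K (xr y t) := by
    apply hK
    intro j hj
    unfold xr
    rw [hxy j hj]
  rw [h1]

end Pool.Agent.X23.WL
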