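import Pool.Agent.X23.WL.Weak

/-!
# Decomposition of the kernels of the logarithmic means
-/

set_option autoImplicit false

open Finset

namespace Pool.Agent.X23.WL

/-- `l_n = ∑_{k=1}^n 1/k` -/
noncomputable def l (n : ℕ) : ℝ := ∑ k ∈ range n, 1 / ((k : ℝ) + 1)

theorem l_zero : l 0 = 0 := by simp [l]

theorem l_succ (n : ℕ) : l (n + 1) = l n + 1 / ((n : ℝ) + 1) := by
  unfold l
  rw [sum_range_succ]

theorem l_add (m n : ℕ) : l (m + n) = l m + ∑ v ∈ range n, 1 / ((m : ℝ) + v + 1) := by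
  unfold l
  rw [sum_range_add]
  congr 1
  refine Finset.sum_congr rfl fun v _ => ?_
  push_cast
  rfl

theorem l_mono {m n : ℕ} (h : m ≤ n) : l m ≤ l n := by
  obtain ⟨d, rfl⟩ := Nat.exists_eq_add_of_le h
  rw [l_add]
  have : 0 ≤ ∑ v ∈ range d, 1 / ((m : ℝ) + v + 1) := Finset.sum_nonneg fun v _ => by positivity
  linarith

theorem l_nonneg (n : ℕ) : 0 ≤ l n := by
  rw [← l_zero]
  exact l_mono (Nat.zero_le n)

theorem l_pos {n : ℕ} (h : 0 < n) : 0 < l n := by
  have h1 : l 1 ≤ l n := l_mono h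
  have h2 : l 1 = 1 := by simp [l]
  linarith

theorem l_two_pow_le (n : ℕ) : l (2 ^ n) ≤ n + 1 := by
  induction n with
  | zero => simp [l]
  | succ n ih =>
    rw [pow_succ, mul_two, l_add]
    have h1 : ∑ v ∈ range (2 ^ n), 1 / (((2 ^ n : ℕ) : ℝ) + v + 1) ≤
        ∑ v ∈ range (2 ^ n), 1 / ((2 : ℝ) ^ n) := by
      refine Finset.sum_le_sum fun v _ => ?_
      apply one_div_le_one_div_of_le (by positivity)
      push_cast
      have : (0 : ℝ) ≤ v := by positivity
      linarith
    rw [sum_const, card_range, nsmul_eq_mul] at h1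
    push_cast at h1 ⊢
    have h2 : (2 : ℝ) ^ n * (1 / 2 ^ n) = 1 := by field_simp
    linarith

theorem half_le (n κ : ℕ) (h : κ ≤ 2 ^ n) : 1 / 2 ≤ l (κ + 2 ^ n) - l κ := by
  rw [l_add]
  have h1 : ∑ v ∈ range (2 ^ n), 1 / (2 * (2 : ℝ) ^ n) ≤
      ∑ v ∈ range (2 ^ n), 1 / ((κ : ℝ) + v + 1) := by
    refine Finset.sum_le_sum fun v hv => ?_
    apply one_div_le_one_div_of_le (by positivity)
    have h2 : v + 1 ≤ 2 ^ n := mem_range.1 hv
    have h3 : ((v + 1 : ℕ) : ℝ) ≤ ((2 ^ n : ℕ) : ℝ) := by exact_mod_cast h2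
    have h4 : (κ : ℝ) ≤ ((2 ^ n : ℕ) : ℝ) := by exact_mod_cast h
    push_cast at h3 h4
    linarith
  rw [sum_const, card_range, nsmul_eq_mul] at h1
  push_cast at h1
  have h2 : (2 : ℝ) ^ n * (1 / (2 * 2 ^ n)) = 1 / 2 := by field_simp
  linarith

theorem le_l_two_pow (n : ℕ) : (n : ℝ) / 2 ≤ l (2 ^ n) := by
  induction n with
  | zero => simp [l]
  | succ n ih =>
    have h1 := half_le n (2 ^ n) le_rfl
    rw [pow_succ, mul_two]
    push_cast
    linarith

theorem av_abs_D (n : ℕ) : ∀ M : ℕ, n ≤ M → av M (fun x => |D (2 ^ n) x|) = 1 := by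
  induction n with
  | zero =>
    intro M _
    simp only [pow_zero, D_one, abs_one]
    exact av_const _ _
  | succ n ih =>
    intro M hM
    obtain ⟨M, rfl⟩ : ∃ M', M = M' + 1 := ⟨M - 1, by omega⟩
    rw [av_succ]
    simp only [D_two_pow_succ, cons_zero, tl_cons, sg_false, sg_true, add_neg_cancel, zero_mul,
      abs_zero]
    have e : ∀ x : Pt, |(1 + 1) * D (2 ^ n) x| = 2 * |D (2 ^ n) x| := by
      intro x
      rw [abs_mul]
      norm_num
    simp only [e]
    rw [av_mul, ih M (by omega), av_const, smul_eq_mul]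
    norm_num

/-- `∑_{v=1}^V D_v` -/
noncomputable def Q (V : ℕ) (x : Pt) : ℝ := ∑ u ∈ range V, D (u + 1) x

theorem Q_lev {V n : ℕ} (h : V ≤ 2 ^ n) : Lev n (Q V) := by
  intro x y hxy
  unfold Q
  refine Finset.sum_congr rfl fun u hu => ?_
  exact D_lev (by have := mem_range.1 hu; omega) x y hxy

theorem Q_two_mul (V : ℕ) (x : Pt) :
    Q (2 * V) x = 2 * (1 + sg (x 0)) * Q V (tl x) - sg (x 0) * D V (tl x) := by
  unfold Q
  rw [sum_two_mul, Finset.mul_sum]
  conv_rhs => rw [D, Finset.mul_sum]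
  rw [← Finset.sum_sub_distrib]
  refine Finset.sum_congr rfl fun u _ => ?_
  have e1 : D (2 * u + 1 + 1) x = (1 + sg (x 0)) * D (u + 1) (tl x) := by
    rw [show 2 * u + 1 + 1 = 2 * (u + 1) by ring, D_two_mul]
  have e2 : D (2 * u + 1 + 1) x = D (2 * u + 1) x + sg (x 0) * W u (tl x) := by
    rw [D_succ (2 * u + 1), W_two_mul_add]
  have e3 : D (2 * u + 1) x = (1 + sg (x 0)) * D (u + 1) (tl x) - sg (x 0) * W u (tl x) := by
    linarith
  rw [e1, e3]
  ring

theorem av_Q_two_pow (n : ℕ) : ∀ M : ℕ, n ≤ M →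
    av M (fun x => |Q (2 ^ n) x|) ≤ 2 * 2 ^ n - 1 := by
  induction n with
  | zero =>
    intro M _
    have : ∀ x : Pt, |Q (2 ^ 0) x| = 1 := by
      intro x
      simp [Q, D_one]
    simp only [this]
    rw [av_const]
    norm_num
  | succ n ih =>
    intro M hM
    obtain ⟨M, rfl⟩ : ∃ M', M = M' + 1 := ⟨M - 1, by omega⟩
    have hf : ∀ x : Pt, |Q (2 ^ (n + 1)) (cons false x)| ≤
        4 * |Q (2 ^ n) x| + |D (2 ^ n) x| := by
      intro x
      rw [show (2 : ℕ) ^ (n + 1) = 2 * 2 ^ n from pow_succ' 2 n, Q_two_mul, tl_cons, cons_zero,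
        sg_false]
      refine (abs_sub _ _).trans ?_
      rw [abs_mul, one_mul]
      norm_num
    have ht : ∀ x : Pt, |Q (2 ^ (n + 1)) (cons true x)| ≤ |D (2 ^ n) x| := by
      intro x
      rw [show (2 : ℕ) ^ (n + 1) = 2 * 2 ^ n from pow_succ' 2 n, Q_two_mul, tl_cons, cons_zero,
        sg_true]
      norm_num
    rw [av_succ, smul_eq_mul]
    have h1 := av_mono (n := M) hf
    have h2 := av_mono (n := M) ht
    rw [av_add, av_mul, av_abs_D n M (by omega)] at h1
    rw [av_abs_D n M (by omega)] at h2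
    have h3 := ih M (by omega)
    have hpow : (2 : ℝ) ^ (n + 1) = 2 ^ n * 2 := pow_succ 2 n
    rw [hpow]
    linarith

theorem av_Q (n : ℕ) : ∀ V : ℕ, V ≤ 2 ^ n → av n (fun x => |Q V x|) ≤ 4 * V := by
  induction n with
  | zero =>
    intro V hV
    rw [pow_zero] at hV
    rw [av_zero]
    interval_cases V
    · simp [Q]
    · simp [Q, D_one]
  | succ n ih =>
    intro V hV
    by_cases h : V ≤ 2 ^ n
    · have hL : Lev n (fun x => |Q V x|) := fun x y hxy => by
        change |Q V x| = |Q V y|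
        rw [Q_lev h x y hxy]
      rw [av_lev n (n + 1) _ hL (by omega)]
      exact ih V h
    · push Not at h
      obtain ⟨V', rfl⟩ := Nat.exists_eq_add_of_le h.le
      have hV' : V' ≤ 2 ^ n := by rw [pow_succ] at hV; omega
      have e : ∀ x : Pt, Q (2 ^ n + V') x = Q (2 ^ n) x + (V' * D (2 ^ n) x + sg (x n) * Q V' x) := by
        intro x
        unfold Q
        rw [sum_range_add, Finset.mul_sum]
        congr 1
        rw [← nsmul_eq_mul, ← card_range V', ← sum_const, card_range, ← sum_add_distrib]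
        refine Finset.sum_congr rfl fun u hu => ?_
        rw [add_assoc, D_top (by have := mem_range.1 hu; omega)]
      have h1 : ∀ x : Pt, |Q (2 ^ n + V') x| ≤
          |Q (2 ^ n) x| + (V' * |D (2 ^ n) x| + |Q V' x|) := by
        intro x
        rw [e]
        refine (abs_add_le _ _).trans ?_
        gcongr
        refine (abs_add_le _ _).trans ?_
        rw [abs_mul, abs_mul, abs_sg, one_mul, Nat.abs_cast]
      refine (av_mono h1).trans ?_
      rw [av_add, av_add, av_mul, av_abs_D n (n + 1) (by omega)]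
      have hL : Lev n (fun x => |Q V' x|) := fun x y hxy => by
        change |Q V' x| = |Q V' y|
        rw [Q_lev hV' x y hxy]
      rw [av_lev n (n + 1) _ hL (by omega)]
      have h2 := av_Q_two_pow n (n + 1) (by omega)
      have h3 := ih V' hV'
      have h4 : (V' : ℝ) ≤ ((2 ^ n : ℕ) : ℝ) := by exact_mod_cast hV'
      push_cast at h4 ⊢
      linarith

/-- `∑_{v=1}^{2^n} D_v / (κ + v)` -/
noncomputable def R (n κ : ℕ) (x : Pt) : ℝ :=
  ∑ v ∈ range (2 ^ n), D (v + 1) x * (1 / ((κ : ℝ) + v + 1))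

theorem abel (V κ : ℕ) (x : Pt) : ∑ v ∈ range V, D (v + 1) x * (1 / ((κ : ℝ) + v + 1)) =
    ∑ v ∈ range V, Q (v + 1) x * (1 / ((κ : ℝ) + v + 1) - 1 / ((κ : ℝ) + v + 2)) +
      Q V x * (1 / ((κ : ℝ) + V + 1)) := by
  induction V with
  | zero => simp [Q]
  | succ V ih =>
    rw [sum_range_succ, sum_range_succ, ih]
    have e : Q (V + 1) x = Q V x + D (V + 1) x := by
      unfold Q
      rw [sum_range_succ]
    rw [e]
    push_cast
    ring

theorem R_lev (n κ : ℕ) : Lev n (R n κ) := by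
  intro x y hxy
  unfold R
  refine Finset.sum_congr rfl fun v hv => ?_
  rw [D_lev (by have := mem_range.1 hv; omega) x y hxy]

theorem av_R (n κ : ℕ) : av n (fun x => |R n κ x|) ≤ 4 * (l (κ + 2 ^ n) - l κ) + 4 := by
  have hd : ∀ v : ℕ, 0 ≤ 1 / ((κ : ℝ) + v + 1) - 1 / ((κ : ℝ) + v + 2) := by
    intro v
    rw [sub_nonneg]
    apply one_div_le_one_div_of_le (by positivity)
    linarith
  have h1 : ∀ x : Pt, |R n κ x| ≤
      ∑ v ∈ range (2 ^ n), (1 / ((κ : ℝ) + v + 1) - 1 / ((κ : ℝ) + v + 2)) * |Q (v + 1) x| +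
      (1 / ((κ : ℝ) + (2 ^ n : ℕ) + 1)) * |Q (2 ^ n) x| := by
    intro x
    unfold R
    rw [abel]
    refine (abs_add_le _ _).trans ?_
    gcongr
    · refine (Finset.abs_sum_le_sum_abs _ _).trans (Finset.sum_le_sum fun v _ => ?_)
      rw [abs_mul, abs_of_nonneg (hd v), mul_comm]
    · rw [abs_mul, abs_of_nonneg (a := 1 / ((κ : ℝ) + (2 ^ n : ℕ) + 1)) (by positivity), mul_comm]
  refine (av_mono h1).trans ?_
  rw [av_add, av_sum, av_mul]
  have h2 : ∀ v ∈ range (2 ^ n), av n (fun x =>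
      (1 / ((κ : ℝ) + v + 1) - 1 / ((κ : ℝ) + v + 2)) * |Q (v + 1) x|) ≤
      4 * (1 / ((κ : ℝ) + v + 1)) := by
    intro v hv
    rw [av_mul]
    have h3 := av_Q n (v + 1) (mem_range.1 hv)
    calc (1 / ((κ : ℝ) + v + 1) - 1 / ((κ : ℝ) + v + 2)) * av n (fun x => |Q (v + 1) x|) ≤
          (1 / ((κ : ℝ) + v + 1) - 1 / ((κ : ℝ) + v + 2)) * (4 * ((v + 1 : ℕ) : ℝ)) := by
          gcongr
          exact hd v
      _ ≤ 4 * (1 / ((κ : ℝ) + v + 1)) := by
          have e : 1 / ((κ : ℝ) + v + 1) - 1 / ((κ : ℝ) + v + 2) =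
              (1 / ((κ : ℝ) + v + 1)) * (1 / ((κ : ℝ) + v + 2)) := by
            field_simp
            ring
          rw [e]
          have h4 : (1 / ((κ : ℝ) + v + 2)) * ((v + 1 : ℕ) : ℝ) ≤ 1 := by
            push_cast
            rw [div_mul_eq_mul_div, one_mul, div_le_one (by positivity)]
            have : (0 : ℝ) ≤ κ := by positivity
            linarith
          have h5 : 0 ≤ 1 / ((κ : ℝ) + v + 1) := by positivity
          nlinarith
  have h3 : 1 / ((κ : ℝ) + (2 ^ n : ℕ) + 1) * av n (fun x => |Q (2 ^ n) x|) ≤ 4 := by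
    have h4 := av_Q n (2 ^ n) le_rfl
    calc 1 / ((κ : ℝ) + (2 ^ n : ℕ) + 1) * av n (fun x => |Q (2 ^ n) x|) ≤
          1 / ((κ : ℝ) + (2 ^ n : ℕ) + 1) * (4 * ((2 ^ n : ℕ) : ℝ)) := by gcongr
      _ ≤ 4 := by
          rw [div_mul_eq_mul_div, one_mul, div_le_iff₀ (by positivity)]
          have : (0 : ℝ) ≤ κ := by positivity
          linarith
  have h4 := Finset.sum_le_sum h2
  rw [← Finset.mul_sum] at h4
  rw [l_add]
  linarith

/-- the kernel `∑_{r<k} D_r / (k - r)` -/
noncomputable def A (k : ℕ) (x : Pt) : ℝ := ∑ r ∈ range k, D r x * (1 / ((k - r : ℕ) : ℝ))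

theorem A_rec (n κ : ℕ) (hκ : κ ≤ 2 ^ n) (x : Pt) :
    A (2 ^ n + κ) x = l (2 ^ n + κ) * D (2 ^ n) x + sg (x n) * A κ x -
      W (2 ^ n - 1) x * R n κ x := by
  have h1 : A (2 ^ n + κ) x = ∑ r ∈ range (2 ^ n), D r x * (1 / ((2 ^ n + κ - r : ℕ) : ℝ)) +
      ∑ r ∈ range κ, D (2 ^ n + r) x * (1 / ((κ - r : ℕ) : ℝ)) := by
    unfold A
    rw [sum_range_add]
    congr 1
    refine Finset.sum_congr rfl fun r _ => ?_
    rw [Nat.add_sub_add_left]
  have h2 : ∑ r ∈ range (2 ^ n), D r x * (1 / ((2 ^ n + κ - r : ℕ) : ℝ)) =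
      (∑ v ∈ range (2 ^ n), 1 / ((κ : ℝ) + v + 1)) * D (2 ^ n) x -
        W (2 ^ n - 1) x * R n κ x := by
    rw [← Finset.sum_range_reflect, Finset.sum_mul]
    unfold R
    rw [Finset.mul_sum, ← Finset.sum_sub_distrib]
    refine Finset.sum_congr rfl fun v hv => ?_
    have hv' := mem_range.1 hv
    have e1 : 2 ^ n - 1 - v = 2 ^ n - (v + 1) := by omega
    have e2 : 2 ^ n + κ - (2 ^ n - 1 - v) = κ + v + 1 := by omega
    rw [e2, e1, D_rev (by omega)]
    push_cast
    ring
  have h3 : ∑ r ∈ range κ, D (2 ^ n + r) x * (1 / ((κ - r : ℕ) : ℝ)) =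
      l κ * D (2 ^ n) x + sg (x n) * A κ x := by
    have e : l κ = ∑ r ∈ range κ, 1 / ((κ - r : ℕ) : ℝ) := by
      unfold l
      rw [← Finset.sum_range_reflect]
      refine Finset.sum_congr rfl fun r hr => ?_
      have hr' := mem_range.1 hr
      rw [show κ - r = κ - 1 - r + 1 by omega]
      push_cast
      rfl
    rw [e]
    unfold A
    rw [Finset.sum_mul, Finset.mul_sum, ← sum_add_distrib]
    refine Finset.sum_congr rfl fun r hr => ?_
    rw [D_top (by have := mem_range.1 hr; omega)]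
    ring
  rw [h1, h2, h3, add_comm (2 ^ n) κ, l_add]
  ring

/-- The decomposition. -/
theorem A_dec (n : ℕ) : ∀ k : ℕ, k < 2 ^ n → ∃ (θ : ℕ → ℝ) (Er : Pt → ℝ),
    (∀ j, 0 ≤ θ j ∧ θ j ≤ l k) ∧ Lev n Er ∧ av n (fun x => |Er x|) ≤ 12 * l k ∧
    ∀ x, A k x = W k x * Kth θ n x + Er x := by
  induction n with
  | zero =>
    intro k hk
    have hk0 : k = 0 := by simpa using hk
    subst hk0
    refine ⟨fun _ => 0, fun _ => 0, fun j => ⟨le_rfl, l_nonneg 0⟩, fun _ _ _ => rfl, ?_, ?_⟩
    · rw [av_zero, l_zero]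
      simp
    · intro x
      simp [A, Kth]
  | succ n ih =>
    intro k hk
    by_cases h : k < 2 ^ n
    · obtain ⟨θ, Er, hθ, hEr, hav, heq⟩ := ih k h
      refine ⟨fun j => if j < n then θ j else 0, Er, ?_, hEr.mono (by omega), ?_, ?_⟩
      · intro j
        dsimp only
        split_ifs
        · exact hθ j
        · exact ⟨le_rfl, l_nonneg k⟩
      · rw [av_lev n (n + 1) _ (fun x y hxy => by
          change |Er x| = |Er y|
          rw [hEr x y hxy]) (by omega)]
        exact hav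
      · intro x
        rw [heq x]
        congr 2
        unfold Kth
        rw [sum_range_succ]
        beta_reduce
        rw [if_neg (lt_irrefl n), zero_mul, add_zero]
        refine Finset.sum_congr rfl fun j hj => ?_
        rw [if_pos (mem_range.1 hj)]
    · push Not at h
      obtain ⟨κ, rfl⟩ := Nat.exists_eq_add_of_le h
      have hκ : κ < 2 ^ n := by rw [pow_succ] at hk; omega
      obtain ⟨θ, Er, hθ, hEr, hav, heq⟩ := ih κ hκ
      have hl : 1 / 2 ≤ l (2 ^ n + κ) - l κ := by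
        rw [add_comm]
        exact half_le n κ hκ.le
      refine ⟨fun j => if j < n then θ j else l (2 ^ n + κ),
        fun x => sg (x n) * Er x - W (2 ^ n - 1) x * R n κ x, ?_, ?_, ?_, ?_⟩
      · intro j
        dsimp only
        split_ifs
        · exact ⟨(hθ j).1, (hθ j).2.trans (by linarith)⟩
        · exact ⟨l_nonneg _, le_rfl⟩
      · intro x y hxy
        have h1 : x n = y n := hxy n (by omega)
        have h2 := hEr x y fun j hj => hxy j (by omega)
        have h3 := R_lev n κ x y fun j hj => hxy j (by omega)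
        have h4 : W (2 ^ n - 1) x = W (2 ^ n - 1) y :=
          W_lev (n := n) (by have : 0 < 2 ^ n := by positivity
                             omega) x y fun j hj => hxy j (by omega)
        simp only [h1, h2, h3, h4]
      · have h1 : ∀ x : Pt, |sg (x n) * Er x - W (2 ^ n - 1) x * R n κ x| ≤
            |Er x| + |R n κ x| := by
          intro x
          refine (abs_sub _ _).trans ?_
          rw [abs_mul, abs_mul, abs_sg, abs_W, one_mul, one_mul]
        refine (av_mono h1).trans ?_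
        rw [av_add, av_lev n (n + 1) _ (fun x y hxy => by
          change |Er x| = |Er y|
          rw [hEr x y hxy]) (by omega), av_lev n (n + 1) _ (fun x y hxy => by
          change |R n κ x| = |R n κ y|
          rw [R_lev n κ x y hxy]) (by omega)]
        have h2 := av_R n κ
        rw [add_comm κ] at h2
        linarith
      · intro x
        rw [A_rec n κ hκ.le, heq x, W_top n κ x hκ]
        have e1 : Kth (fun j => if j < n then θ j else l (2 ^ n + κ)) (n + 1) x =
            Kth θ n x + l (2 ^ n + κ) * (sg (x n) * D (2 ^ n) x) := by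
          unfold Kth
          rw [sum_range_succ]
          beta_reduce
          rw [if_neg (lt_irrefl n)]
          congr 1
          · refine Finset.sum_congr rfl fun j hj => ?_
            rw [if_pos (mem_range.1 hj)]
          · rw [pow_succ, mul_two, D_top le_rfl]
            ring
        rw [e1]
        have e2 : W κ x * D (2 ^ n) x = D (2 ^ n) x := W_mul_D n κ x hκ
        have e3 := sg_mul_self (x n)
        have e4 : sg (x n) * W κ x * (l (2 ^ n + κ) * (sg (x n) * D (2 ^ n) x)) =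
            l (2 ^ n + κ) * D (2 ^ n) x := by
          calc _ = l (2 ^ n + κ) * ((sg (x n) * sg (x n)) * (W κ x * D (2 ^ n) x)) := by ring
            _ = _ := by rw [e3, e2, one_mul]
        beta_reduce
        rw [mul_add (sg (x n) * W κ x), e4]
        ring

end Pool.Agent.X23.WL
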