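import Pool.Agent.X23.WL.Mean

/-!
# The finite-level estimate of `L_k f - f m`
-/

set_option autoImplicit false

open Finset Filter Topology

namespace Pool.Agent.X23.WL

section
variable {E : Type*} [NormedAddCommGroup E] [NormedSpace ℝ E]

theorem tele {p : ℝ} (hp : 0 < p) (hp1 : p ≤ 1) (k M m : ℕ) (f : ℕ → Pt → E) (n : ℕ)
    (hmn : m ≤ n) :
    av M (fun x => ‖Lm k M (f n) x - f m x‖ ^ p) ≤
      av M (fun x => ‖Lm k M (f m) x - f m x‖ ^ p) +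
      ∑ j ∈ Ico m n, av M (fun x => ‖Lm k M (fun t => f (j + 1) t - f j t) x‖ ^ p) := by
  induction n, hmn using Nat.le_induction with
  | base => simp
  | succ n hmn ih =>
    rw [Finset.sum_Ico_succ_top hmn, ← add_assoc]
    have h1 : av M (fun x => ‖Lm k M (f (n + 1)) x - f m x‖ ^ p) ≤
        av M (fun x => ‖Lm k M (f n) x - f m x‖ ^ p) +
        av M (fun x => ‖Lm k M (fun t => f (n + 1) t - f n t) x‖ ^ p) := by
      rw [← av_add]
      apply av_mono'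
      intro x
      rw [Lm_sub]
      have : Lm k M (f (n + 1)) x - f m x =
          (Lm k M (f n) x - f m x) + (Lm k M (f (n + 1)) x - Lm k M (f n) x) := by abel
      rw [this]
      exact norm_add_rpow_le hp hp1 _ _
    linarith

theorem l_one_le {k : ℕ} (h : 0 < k) : 1 ≤ l k := by
  have h1 : l 1 ≤ l k := l_mono h
  have h2 : l 1 = 1 := by simp [l]
  linarith

theorem inv_l_le {k N : ℕ} (h : 2 ^ N ≤ k) (hN : 0 < N) : (l k)⁻¹ ≤ 2 / N := by
  have h1 := le_l_two_pow N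
  have h2 : l (2 ^ N) ≤ l k := l_mono h
  have h3 : (0 : ℝ) < N := by exact_mod_cast hN
  have h4 : (0 : ℝ) < N / 2 := by positivity
  have h5 : 0 < l k := by linarith
  rw [inv_le_comm₀ h5 (by positivity), inv_div]
  linarith

theorem term_le {p K C : ℝ} (hp : 0 < p) (hp1 : p < 1) (hK0 : 0 ≤ K)
    (hK : ∀ n : ℕ, ∑ s ∈ range n, ((2 : ℝ) ^ (p - 1)) ^ s * ((s : ℝ) + 1) ≤ K)
    (f : ℕ → Pt → E) (hf : ∀ n, Lev n (f n)) (hC : 0 ≤ C)
    (ha : ∀ j : ℕ, av (j + 1) (fun x => ‖f (j + 1) x - f j x‖ ^ p) * ((2 : ℝ) ^ j) ^ (1 - p) ≤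
      C * ((j : ℝ) + 1) ^ (p / 4))
    {k N j : ℕ} (h1 : 2 ^ N ≤ k) (h2 : k < 2 ^ (N + 1)) (hj : j ≤ N) :
    av (N + 1) (fun x => ‖Lm k (N + 1) (fun t => f (j + 1) t - f j t) x‖ ^ p) ≤
      av (j + 1) (fun x => ‖f (j + 1) x - f j x‖ ^ p) +
      (l k)⁻¹ ^ (p / 2) * (8 * (K + 1) * C * ((N : ℝ) + 1) ^ (p / 4)) *
        ((2 : ℝ) ^ (-p)) ^ (N - j) := by
  set g : Pt → E := fun t => f (j + 1) t - f j t with hg
  set a : ℝ := av (j + 1) (fun x => ‖f (j + 1) x - f j x‖ ^ p) with haj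
  have ha0 : 0 ≤ a := av_nonneg fun x => by positivity
  have hgl : Lev (j + 1) g := by
    intro x y hxy
    rw [hg]
    beta_reduce
    rw [hf (j + 1) x y hxy, hf j x y (fun i hi => hxy i (by omega))]
  have hgM : av (N + 1) (fun x => ‖g x‖ ^ p) = a := by
    rw [haj]
    apply av_lev (j + 1) (N + 1) (fun x => ‖g x‖ ^ p) _ (by omega)
    intro x y hxy
    beta_reduce
    rw [hgl x y hxy]
  have hk0 : 0 < k := lt_of_lt_of_le (by positivity) h1
  have hkr : (0 : ℝ) < k := by exact_mod_cast hk0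
  have hl1 : 1 ≤ l k := l_one_le hk0
  have hl0 : 0 < (l k)⁻¹ := by positivity
  have hl2 : (l k)⁻¹ ≤ 1 := inv_le_one_of_one_le₀ hl1
  have hlp : (l k)⁻¹ ^ p ≤ (l k)⁻¹ ^ (p / 2) :=
    Real.rpow_le_rpow_of_exponent_ge hl0 hl2 (by linarith)
  have hN : ((j : ℝ) + 1) ^ (p / 4) ≤ ((N : ℝ) + 1) ^ (p / 4) := by
    have : (j : ℝ) ≤ N := by exact_mod_cast hj
    gcongr
  have haC : a * ((2 : ℝ) ^ j) ^ (1 - p) ≤ C * ((N : ℝ) + 1) ^ (p / 4) :=
    (ha j).trans (by gcongr)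
  have hj1 : (1 : ℝ) ≤ ((2 : ℝ) ^ j) ^ (1 - p) :=
    Real.one_le_rpow (one_le_pow₀ (by norm_num)) (by linarith)
  have h4p : (4 : ℝ) ^ (1 - p) ≤ 4 := by
    calc (4 : ℝ) ^ (1 - p) ≤ (4 : ℝ) ^ (1 : ℝ) :=
          Real.rpow_le_rpow_of_exponent_le (by norm_num) (by linarith)
      _ = 4 := Real.rpow_one _
  have h4p' : (4 : ℝ) ^ p ≤ 4 := by
    calc (4 : ℝ) ^ p ≤ (4 : ℝ) ^ (1 : ℝ) :=
          Real.rpow_le_rpow_of_exponent_le (by norm_num) (by linarith)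
      _ = 4 := Real.rpow_one _
  have h2p : (2 : ℝ) ^ (1 - p) ≤ 2 := by
    calc (2 : ℝ) ^ (1 - p) ≤ (2 : ℝ) ^ (1 : ℝ) :=
          Real.rpow_le_rpow_of_exponent_le (by norm_num) (by linarith)
      _ = 2 := Real.rpow_one _
  have hq0 : (0 : ℝ) < (2 : ℝ) ^ (-p) := by positivity
  by_cases hc : j + 2 ≤ N
  · have h3 : 2 ^ (j + 1 + 1) ≤ k := le_trans (Nat.pow_le_pow_right (by norm_num) (by omega)) h1
    have e1 := Lm_err_p hp hp1 hK h3 h2.le hgl
    rw [show av (j + 1) (fun x => ‖g x‖ ^ p) = a from rfl] at e1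
    have e2 : av (N + 1) (fun x => ‖Lm k (N + 1) g x‖ ^ p) ≤
        a + av (N + 1) (fun x => ‖Lm k (N + 1) g x - g x‖ ^ p) := by
      rw [← hgM, ← av_add]
      apply av_mono'
      intro x
      have : Lm k (N + 1) g x = g x + (Lm k (N + 1) g x - g x) := by abel
      conv_lhs => rw [this]
      exact norm_add_rpow_le hp hp1.le _ _
    refine e2.trans ?_
    gcongr
    refine e1.trans ?_
    have e3 : ((2 : ℝ) ^ (j + 1 + 1) / k) ^ p ≤ 4 * ((2 : ℝ) ^ (-p)) ^ (N - j) := by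
      have e4 : (2 : ℝ) ^ (j + 1 + 1) / k ≤ 4 * ((2 : ℝ)⁻¹) ^ (N - j) := by
        rw [div_le_iff₀ hkr]
        have e5 : (2 : ℝ) ^ N ≤ k := by exact_mod_cast h1
        have e6 : ((2 : ℝ)⁻¹) ^ (N - j) * (2 : ℝ) ^ N = 2 ^ j := by
          conv_lhs => rw [show N = (N - j) + j by omega, show (N - j) + j - j = N - j by omega,
            pow_add, ← mul_assoc, ← mul_pow]
          norm_num
        calc (2 : ℝ) ^ (j + 1 + 1) = 4 * 2 ^ j := by ring
          _ = 4 * (((2 : ℝ)⁻¹) ^ (N - j) * (2 : ℝ) ^ N) := by rw [e6]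
          _ ≤ 4 * (((2 : ℝ)⁻¹) ^ (N - j) * k) := by gcongr
          _ = _ := by ring
      calc ((2 : ℝ) ^ (j + 1 + 1) / k) ^ p ≤ (4 * ((2 : ℝ)⁻¹) ^ (N - j)) ^ p := by gcongr
        _ = 4 ^ p * ((2 : ℝ) ^ (-p)) ^ (N - j) := by
            rw [Real.mul_rpow (by norm_num) (by positivity), ← Real.rpow_natCast ((2 : ℝ)⁻¹),
              ← Real.rpow_mul (by norm_num), mul_comm ((N - j : ℕ) : ℝ) p,
              Real.rpow_mul (by norm_num), Real.rpow_natCast, Real.inv_rpow (by norm_num),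
              ← Real.rpow_neg (by norm_num)]
        _ ≤ _ := by gcongr
    have e7 : ((2 : ℝ) ^ (j + 1)) ^ (1 - p) * K + 1 ≤ 2 * (K + 1) * ((2 : ℝ) ^ j) ^ (1 - p) := by
      have e8 : ((2 : ℝ) ^ (j + 1)) ^ (1 - p) ≤ 2 * ((2 : ℝ) ^ j) ^ (1 - p) := by
        rw [pow_succ, Real.mul_rpow (by positivity) (by norm_num), mul_comm]
        gcongr
      have e9 : ((2 : ℝ) ^ (j + 1)) ^ (1 - p) * K ≤ 2 * ((2 : ℝ) ^ j) ^ (1 - p) * K := by gcongr
      nlinarith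
    calc (l k)⁻¹ ^ p * ((2 : ℝ) ^ (j + 1 + 1) / k) ^ p *
          (((2 : ℝ) ^ (j + 1)) ^ (1 - p) * K + 1) * a ≤
        (l k)⁻¹ ^ (p / 2) * (4 * ((2 : ℝ) ^ (-p)) ^ (N - j)) *
          (2 * (K + 1) * ((2 : ℝ) ^ j) ^ (1 - p)) * a := by gcongr
      _ = (l k)⁻¹ ^ (p / 2) * (8 * (K + 1) * (a * ((2 : ℝ) ^ j) ^ (1 - p))) *
          ((2 : ℝ) ^ (-p)) ^ (N - j) := by ring
      _ ≤ (l k)⁻¹ ^ (p / 2) * (8 * (K + 1) * (C * ((N : ℝ) + 1) ^ (p / 4))) *
          ((2 : ℝ) ^ (-p)) ^ (N - j) := by gcongr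
      _ = _ := by ring
  · have e1 := Lm_p hp hp1 hK hk0 h2.le g
    rw [hgM] at e1
    have e2 : ((2 : ℝ) ^ (N + 1)) ^ (1 - p) ≤ 4 * ((2 : ℝ) ^ j) ^ (1 - p) := by
      have e3 : (2 : ℝ) ^ (N + 1) ≤ 4 * 2 ^ j := by
        calc (2 : ℝ) ^ (N + 1) ≤ 2 ^ (j + 2) := pow_le_pow_right₀ (by norm_num) (by omega)
          _ = _ := by ring
      calc ((2 : ℝ) ^ (N + 1)) ^ (1 - p) ≤ (4 * (2 : ℝ) ^ j) ^ (1 - p) :=
            Real.rpow_le_rpow (by positivity) e3 (by linarith)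
        _ = 4 ^ (1 - p) * ((2 : ℝ) ^ j) ^ (1 - p) := Real.mul_rpow (by norm_num) (by positivity)
        _ ≤ _ := by gcongr
    have e3 : (1 : ℝ) ≤ 2 * ((2 : ℝ) ^ (-p)) ^ (N - j) := by
      have e4 : (1 : ℝ) / 2 ≤ (2 : ℝ) ^ (-p) := by
        calc (1 : ℝ) / 2 = (2 : ℝ) ^ (-(1 : ℝ)) := by
              rw [Real.rpow_neg (by norm_num), Real.rpow_one]
              norm_num
          _ ≤ _ := Real.rpow_le_rpow_of_exponent_le (by norm_num) (by linarith)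
      have : N - j = 0 ∨ N - j = 1 := by omega
      rcases this with h | h
      · rw [h, pow_zero]
        norm_num
      · rw [h, pow_one]
        linarith
    calc av (N + 1) (fun x => ‖Lm k (N + 1) g x‖ ^ p) ≤
          (l k)⁻¹ ^ (p / 2) * ((2 : ℝ) ^ (N + 1)) ^ (1 - p) * K * a := e1
      _ ≤ (l k)⁻¹ ^ (p / 2) * (4 * ((2 : ℝ) ^ j) ^ (1 - p)) * (K + 1) * a := by
          gcongr
          linarith
      _ = (l k)⁻¹ ^ (p / 2) * (4 * (K + 1) * (a * ((2 : ℝ) ^ j) ^ (1 - p))) * 1 := by ring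
      _ ≤ (l k)⁻¹ ^ (p / 2) * (4 * (K + 1) * (C * ((N : ℝ) + 1) ^ (p / 4))) *
          (2 * ((2 : ℝ) ^ (-p)) ^ (N - j)) := by gcongr
      _ = (l k)⁻¹ ^ (p / 2) * (8 * (K + 1) * C * ((N : ℝ) + 1) ^ (p / 4)) *
        ((2 : ℝ) ^ (-p)) ^ (N - j) := by ring
      _ ≤ _ := by linarith

theorem geo_sum {q : ℝ} (hq0 : 0 ≤ q) (hq1 : q < 1) (m N : ℕ) :
    ∑ j ∈ Ico m (N + 1), q ^ (N - j) ≤ (1 - q)⁻¹ := by
  calc ∑ j ∈ Ico m (N + 1), q ^ (N - j) ≤ ∑ j ∈ range (N + 1), q ^ (N - j) := by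
        apply Finset.sum_le_sum_of_subset_of_nonneg
        · intro j hj
          rw [mem_Ico] at hj
          rw [mem_range]
          exact hj.2
        · intro j _ _
          positivity
    _ = ∑ j ∈ range (N + 1), q ^ j := by
        rw [← Finset.sum_range_reflect]
        refine Finset.sum_congr rfl fun j hj => ?_
        have := mem_range.1 hj
        congr 1
        omega
    _ ≤ ∑' j : ℕ, q ^ j := by
        apply Summable.sum_le_tsum
        · intro j _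
          positivity
        · exact summable_geometric_of_lt_one hq0 hq1
    _ = _ := tsum_geometric_of_lt_one hq0 hq1

theorem fin_p {p K C : ℝ} (hp : 0 < p) (hp1 : p < 1) (hK0 : 0 ≤ K)
    (hK : ∀ n : ℕ, ∑ s ∈ range n, ((2 : ℝ) ^ (p - 1)) ^ s * ((s : ℝ) + 1) ≤ K)
    (f : ℕ → Pt → E) (hf : ∀ n, Lev n (f n)) (hC : 0 ≤ C)
    (ha : ∀ j : ℕ, av (j + 1) (fun x => ‖f (j + 1) x - f j x‖ ^ p) * ((2 : ℝ) ^ j) ^ (1 - p) ≤
      C * ((j : ℝ) + 1) ^ (p / 4))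
    {k N m : ℕ} (h1 : 2 ^ N ≤ k) (h2 : k < 2 ^ (N + 1)) (hm : m + 1 ≤ N) :
    av (N + 1) (fun x => ‖Lm k (N + 1) (f (N + 1)) x - f m x‖ ^ p) ≤
      (l k)⁻¹ ^ p * ((((2 : ℝ) ^ m) ^ (1 - p) * K + 1) * av m (fun x => ‖f m x‖ ^ p)) +
      (∑ j ∈ Ico m (N + 1), av (j + 1) (fun x => ‖f (j + 1) x - f j x‖ ^ p) +
      (l k)⁻¹ ^ (p / 2) * (8 * (K + 1) * C * ((N : ℝ) + 1) ^ (p / 4)) *
        (1 - (2 : ℝ) ^ (-p))⁻¹) := by
  have hk0 : 0 < k := lt_of_lt_of_le (by positivity) h1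
  have hkr : (0 : ℝ) < k := by exact_mod_cast hk0
  have hl1 : 1 ≤ l k := l_one_le hk0
  have hl0 : 0 < (l k)⁻¹ := by positivity
  refine (tele hp hp1.le k (N + 1) m f (N + 1) (by omega)).trans ?_
  have hq0 : (0 : ℝ) < (2 : ℝ) ^ (-p) := by positivity
  have hq1 : (2 : ℝ) ^ (-p) < 1 := Real.rpow_lt_one_of_one_lt_of_neg (by norm_num) (by linarith)
  apply add_le_add
  · have h3 : 2 ^ (m + 1) ≤ k := le_trans (Nat.pow_le_pow_right (by norm_num) hm) h1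
    have e1 := Lm_err_p hp hp1 hK h3 h2.le (hf m)
    refine e1.trans ?_
    have e2 : ((2 : ℝ) ^ (m + 1) / k) ^ p ≤ 1 := by
      apply Real.rpow_le_one (by positivity) _ hp.le
      rw [div_le_one hkr]
      exact_mod_cast h3
    have e3 : 0 ≤ av m (fun x => ‖f m x‖ ^ p) := av_nonneg fun x => by positivity
    calc (l k)⁻¹ ^ p * ((2 : ℝ) ^ (m + 1) / k) ^ p * (((2 : ℝ) ^ m) ^ (1 - p) * K + 1) *
          av m (fun x => ‖f m x‖ ^ p) ≤
          (l k)⁻¹ ^ p * 1 * (((2 : ℝ) ^ m) ^ (1 - p) * K + 1) * av m (fun x => ‖f m x‖ ^ p) := by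
          gcongr
      _ = _ := by ring
  · calc ∑ j ∈ Ico m (N + 1),
          av (N + 1) (fun x => ‖Lm k (N + 1) (fun t => f (j + 1) t - f j t) x‖ ^ p) ≤
        ∑ j ∈ Ico m (N + 1), (av (j + 1) (fun x => ‖f (j + 1) x - f j x‖ ^ p) +
          (l k)⁻¹ ^ (p / 2) * (8 * (K + 1) * C * ((N : ℝ) + 1) ^ (p / 4)) *
            ((2 : ℝ) ^ (-p)) ^ (N - j)) := by
          refine Finset.sum_le_sum fun j hj => ?_
          rw [mem_Ico] at hj
          exact term_le hp hp1 hK0 hK f hf hC ha h1 h2 (by omega)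
      _ ≤ _ := by
          rw [sum_add_distrib, ← Finset.mul_sum]
          have := geo_sum hq0.le hq1 m N
          gcongr

/-- The finite-level form of the weak convergence. -/
def FL (p : ℝ) (f : ℕ → Pt → E) : Prop := ∀ ε : ℝ, 0 < ε → ∃ m0 : ℕ, ∀ m : ℕ, m0 ≤ m →
  ∃ N0 : ℕ, ∀ N : ℕ, N0 ≤ N → ∀ k : ℕ, 2 ^ N ≤ k → k < 2 ^ (N + 1) → ∀ t : ℝ, 0 < t →
    t ^ p * av (N + 1) (fun x => if t ≤ ‖Lm k (N + 1) (f (N + 1)) x - f m x‖ then (1 : ℝ) else 0)
      ≤ ε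

theorem cheb {p : ℝ} (hp : 0 < p) (M : ℕ) (G : Pt → E) {t : ℝ} (ht : 0 < t) :
    t ^ p * av M (fun x => if t ≤ ‖G x‖ then (1 : ℝ) else 0) ≤ av M (fun x => ‖G x‖ ^ p) := by
  rw [← av_mul]
  apply av_mono'
  intro x
  split_ifs with h
  · rw [mul_one]
    exact Real.rpow_le_rpow ht.le h hp.le
  · rw [mul_zero]
    positivity

theorem FL_p {p C : ℝ} (hp : 0 < p) (hp1 : p < 1) (f : ℕ → Pt → E) (hf : ∀ n, Lev n (f n))
    (hC : 0 ≤ C)
    (ha : ∀ j : ℕ, av (j + 1) (fun x => ‖f (j + 1) x - f j x‖ ^ p) * ((2 : ℝ) ^ j) ^ (1 - p) ≤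
      C * ((j : ℝ) + 1) ^ (p / 4)) : FL p f := by
  obtain ⟨K, hK0, hK⟩ := exists_Kp hp hp1
  set a : ℕ → ℝ := fun j => av (j + 1) (fun x => ‖f (j + 1) x - f j x‖ ^ p) with haj
  have ha0 : ∀ j, 0 ≤ a j := fun j => av_nonneg fun x => by positivity
  have hsum : Summable a := by
    have h1 : Summable fun j : ℕ => ((2 : ℝ) ^ (p - 1)) ^ j * ((j : ℝ) + 1) :=
      summable_of_sum_range_le (fun j => by positivity) hK
    refine Summable.of_nonneg_of_le ha0 (fun j => ?_) (h1.mul_left C)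
    have h2 := ha j
    have h3 : ((j : ℝ) + 1) ^ (p / 4) ≤ (j : ℝ) + 1 := by
      calc ((j : ℝ) + 1) ^ (p / 4) ≤ ((j : ℝ) + 1) ^ (1 : ℝ) := by
            apply Real.rpow_le_rpow_of_exponent_le _ (by linarith)
            have : (0 : ℝ) ≤ j := by positivity
            linarith
        _ = _ := Real.rpow_one _
    have h4 : ((2 : ℝ) ^ (p - 1)) ^ j * ((2 : ℝ) ^ j) ^ (1 - p) = 1 := by
      rw [← Real.rpow_natCast ((2 : ℝ) ^ (p - 1)), ← Real.rpow_natCast (2 : ℝ),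
        ← Real.rpow_mul (by norm_num), ← Real.rpow_mul (by norm_num),
        ← Real.rpow_add (by norm_num)]
      rw [show (p - 1) * (j : ℝ) + (j : ℝ) * (1 - p) = 0 by ring, Real.rpow_zero]
    have h5 : (0 : ℝ) < ((2 : ℝ) ^ j) ^ (1 - p) := by positivity
    have h6 : a j * ((2 : ℝ) ^ j) ^ (1 - p) ≤
        (C * (((2 : ℝ) ^ (p - 1)) ^ j * ((j : ℝ) + 1))) * ((2 : ℝ) ^ j) ^ (1 - p) := by
      calc a j * ((2 : ℝ) ^ j) ^ (1 - p) ≤ C * ((j : ℝ) + 1) ^ (p / 4) := h2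
        _ ≤ C * ((j : ℝ) + 1) := by gcongr
        _ = C * ((j : ℝ) + 1) * (((2 : ℝ) ^ (p - 1)) ^ j * ((2 : ℝ) ^ j) ^ (1 - p)) := by
            rw [h4, mul_one]
        _ = _ := by ring
    exact le_of_mul_le_mul_right h6 h5
  intro ε hε
  have ht1 : Tendsto (fun m : ℕ => ∑' i : ℕ, a (i + m)) atTop (𝓝 0) := tendsto_sum_nat_add a
  obtain ⟨m0, hm0⟩ := eventually_atTop.1 (ht1.eventually_lt_const (show (0 : ℝ) < ε / 3 by positivity))
  refine ⟨m0, fun m hm => ?_⟩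
  set c : ℝ := (((2 : ℝ) ^ m) ^ (1 - p) * K + 1) * av m (fun x => ‖f m x‖ ^ p) with hc
  have hc0 : 0 ≤ c := by
    have : 0 ≤ av m (fun x => ‖f m x‖ ^ p) := av_nonneg fun x => by positivity
    positivity
  have hq1 : (2 : ℝ) ^ (-p) < 1 := Real.rpow_lt_one_of_one_lt_of_neg (by norm_num) (by linarith)
  set c' : ℝ := 8 * (K + 1) * C * (1 - (2 : ℝ) ^ (-p))⁻¹ with hc'
  have hc'0 : 0 ≤ c' := by
    have : 0 < 1 - (2 : ℝ) ^ (-p) := by linarith
    positivity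
  have hinv : Tendsto (fun N : ℕ => (1 : ℝ) / N) atTop (𝓝 0) := tendsto_one_div_atTop_nhds_zero_nat
  have ht2 : Tendsto (fun N : ℕ => (2 / (N : ℝ)) ^ p * c) atTop (𝓝 0) := by
    have h1 : Tendsto (fun N : ℕ => 2 / (N : ℝ)) atTop (𝓝 0) := by
      have := hinv.const_mul 2
      rw [mul_zero] at this
      refine this.congr fun N => by ring
    have h2 := (h1.rpow_const (p := p) (Or.inr hp.le)).mul_const c
    rwa [Real.zero_rpow hp.ne', zero_mul] at h2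
  have ht3 : Tendsto (fun N : ℕ => (8 / (N : ℝ)) ^ (p / 4) * c') atTop (𝓝 0) := by
    have h1 : Tendsto (fun N : ℕ => 8 / (N : ℝ)) atTop (𝓝 0) := by
      have := hinv.const_mul 8
      rw [mul_zero] at this
      refine this.congr fun N => by ring
    have hp4 : 0 < p / 4 := by positivity
    have h2 := (h1.rpow_const (p := p / 4) (Or.inr hp4.le)).mul_const c'
    rwa [Real.zero_rpow hp4.ne', zero_mul] at h2
  obtain ⟨N1, hN1⟩ := eventually_atTop.1 (ht2.eventually_lt_const (show (0 : ℝ) < ε / 3 by positivity))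
  obtain ⟨N2, hN2⟩ := eventually_atTop.1 (ht3.eventually_lt_const (show (0 : ℝ) < ε / 3 by positivity))
  refine ⟨max (m + 1) (max N1 N2), fun N hN k h1 h2 t ht => ?_⟩
  have hNm : m + 1 ≤ N := le_trans (le_max_left _ _) hN
  have hNN1 : N1 ≤ N := le_trans (le_trans (le_max_left _ _) (le_max_right _ _)) hN
  have hNN2 : N2 ≤ N := le_trans (le_trans (le_max_right _ _) (le_max_right _ _)) hN
  refine (cheb hp (N + 1) (fun x => Lm k (N + 1) (f (N + 1)) x - f m x) ht).trans ?_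
  refine (fin_p hp hp1 hK0 hK f hf hC ha h1 h2 hNm).trans ?_
  have hN0 : 0 < N := by omega
  have hNr : (1 : ℝ) ≤ N := by exact_mod_cast hN0
  have hl := inv_l_le h1 hN0
  have hk0 : 0 < k := lt_of_lt_of_le (by positivity) h1
  have hl0 : 0 < (l k)⁻¹ := by
    have := l_pos hk0
    positivity
  have b1 : (l k)⁻¹ ^ p * c ≤ (2 / (N : ℝ)) ^ p * c := by gcongr
  have b2 : ∑ j ∈ Ico m (N + 1), a j ≤ ∑' i : ℕ, a (i + m) := by
    rw [Finset.sum_Ico_eq_sum_range]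
    have : ∑ i ∈ range (N + 1 - m), a (m + i) = ∑ i ∈ range (N + 1 - m), a (i + m) :=
      Finset.sum_congr rfl fun i _ => by rw [add_comm]
    rw [this]
    exact Summable.sum_le_tsum _ (fun i _ => ha0 _) ((summable_nat_add_iff m).2 hsum)
  have b3 : (l k)⁻¹ ^ (p / 2) * (8 * (K + 1) * C * ((N : ℝ) + 1) ^ (p / 4)) *
      (1 - (2 : ℝ) ^ (-p))⁻¹ ≤ (8 / (N : ℝ)) ^ (p / 4) * c' := by
    have e1 : (l k)⁻¹ ^ (p / 2) = ((l k)⁻¹ ^ 2) ^ (p / 4) := by
      rw [← Real.rpow_natCast, ← Real.rpow_mul hl0.le]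
      congr 1
      push_cast
      ring
    have e2 : (l k)⁻¹ ^ (p / 2) * ((N : ℝ) + 1) ^ (p / 4) ≤ (8 / (N : ℝ)) ^ (p / 4) := by
      rw [e1, ← Real.mul_rpow (by positivity) (by positivity)]
      apply Real.rpow_le_rpow (by positivity) _ (by positivity)
      calc (l k)⁻¹ ^ 2 * ((N : ℝ) + 1) ≤ (2 / (N : ℝ)) ^ 2 * ((N : ℝ) + N) := by gcongr
        _ = _ := by
            field_simp
            ring
    calc (l k)⁻¹ ^ (p / 2) * (8 * (K + 1) * C * ((N : ℝ) + 1) ^ (p / 4)) *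
          (1 - (2 : ℝ) ^ (-p))⁻¹ = ((l k)⁻¹ ^ (p / 2) * ((N : ℝ) + 1) ^ (p / 4)) * c' := by
          rw [hc']
          ring
      _ ≤ _ := by gcongr
  have b4 := hm0 m hm
  have b5 := hN1 N hNN1
  have b6 := hN2 N hNN2
  linarith

end

section
variable {E : Type*} [NormedAddCommGroup E] [InnerProductSpace ℝ E]

theorem FL_one (f : ℕ → Pt → E) (hf : ∀ n, Lev n (f n)) (om : ℕ → ℝ)
    (hom : Tendsto om atTop (𝓝 0)) (n0 : ℕ)
    (ha : ∀ m : ℕ, ∀ M : ℕ, n0 ≤ m → m ≤ M → av M (fun x => ‖f M x - f m x‖) ≤ om m) :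
    FL 1 f := by
  intro ε hε
  obtain ⟨m0, hm0⟩ := eventually_atTop.1 (hom.eventually_lt_const
    (show (0 : ℝ) < ε / 112 by positivity))
  refine ⟨max m0 n0, fun m hm' => ?_⟩
  have hm : m0 ≤ m := le_trans (le_max_left _ _) hm'
  have hmn : n0 ≤ m := le_trans (le_max_right _ _) hm'
  set c : ℝ := (2 ^ m + 1) * av m (fun x => ‖f m x‖) with hc
  have hc0 : 0 ≤ c := by
    have : 0 ≤ av m (fun x => ‖f m x‖) := av_nonneg fun x => by positivity
    positivity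
  have hinv : Tendsto (fun N : ℕ => (1 : ℝ) / N) atTop (𝓝 0) := tendsto_one_div_atTop_nhds_zero_nat
  have ht2 : Tendsto (fun N : ℕ => (2 / (N : ℝ)) * c) atTop (𝓝 0) := by
    have := hinv.const_mul (2 * c)
    rw [mul_zero] at this
    refine this.congr fun N => by ring
  obtain ⟨N1, hN1⟩ := eventually_atTop.1 (ht2.eventually_lt_const (show (0 : ℝ) < ε / 4 by positivity))
  refine ⟨max (m + 1) N1, fun N hN k h1 h2 t ht => ?_⟩
  have hNm : m + 1 ≤ N := le_trans (le_max_left _ _) hN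
  have hNN1 : N1 ≤ N := le_trans (le_max_right _ _) hN
  have hN0 : 0 < N := by omega
  have hl := inv_l_le h1 hN0
  have hk0 : 0 < k := lt_of_lt_of_le (by positivity) h1
  have h3 : 2 ^ (m + 1) ≤ k := le_trans (Nat.pow_le_pow_right (by norm_num) hNm) h1
  set M := N + 1 with hM
  have e1 : ∀ x, (if t ≤ ‖Lm k M (f M) x - f m x‖ then (1 : ℝ) else 0) ≤
      (if t / 2 ≤ ‖Lm k M (f m) x - f m x‖ then (1 : ℝ) else 0) +
      (if t / 2 ≤ ‖Lm k M (fun s => f M s - f m s) x‖ then (1 : ℝ) else 0) := by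
    intro x
    by_cases h5 : t ≤ ‖Lm k M (f M) x - f m x‖
    · rw [if_pos h5]
      by_cases h6 : t / 2 ≤ ‖Lm k M (f m) x - f m x‖
      · rw [if_pos h6]
        split_ifs <;> norm_num
      · have h7 : t / 2 ≤ ‖Lm k M (fun s => f M s - f m s) x‖ := by
          push Not at h6
          rw [Lm_sub]
          have h8 := norm_add_le (Lm k M (f m) x - f m x) (Lm k M (f M) x - Lm k M (f m) x)
          have h9 : Lm k M (f m) x - f m x + (Lm k M (f M) x - Lm k M (f m) x) =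
            Lm k M (f M) x - f m x := by abel
          rw [h9] at h8
          linarith
        rw [if_neg h6, if_pos h7]
        norm_num
    · rw [if_neg h5]
      split_ifs <;> norm_num
  have e2 := av_mono' (n := M) e1
  rw [av_add] at e2
  have e3 := markov M (fun x => ‖Lm k M (f m) x - f m x‖) (fun x => norm_nonneg _) (half_pos ht)
  have e4 := Lm_weak hk0 h2 (fun s => f M s - f m s) (half_pos ht)
  have e5 := Lm_err_one h3 h2.le (hf m)
  have e6 := ha m M hmn (by omega)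
  have e7 := hm0 m hm
  have e8 := hN1 N hNN1
  rw [Real.rpow_one]
  have e9 : (l k)⁻¹ * (2 ^ m + 1) * av m (fun x => ‖f m x‖) ≤ 2 / (N : ℝ) * c := by
    rw [mul_assoc, ← hc]
    gcongr
  have e10 : av M (fun x => ‖Lm k M (f m) x - f m x‖) ≤ ε / 4 := by linarith
  have e11 : av M (fun x => ‖f M x - f m x‖) ≤ ε / 112 := by linarith
  calc t * av M (fun x => if t ≤ ‖Lm k M (f M) x - f m x‖ then (1 : ℝ) else 0) ≤
        t * (1 / (t / 2) * (ε / 4) + 28 / (t / 2) * (ε / 112)) := by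
        gcongr
        refine e2.trans (add_le_add (e3.trans ?_) (e4.trans ?_))
        · gcongr
        · gcongr
    _ = ε := by
        field_simp
        ring

end

end Pool.Agent.X23.WL
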