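import Pool.Agent.X23.WL.Basic

/-!
# Kernels `∑ c_r D_r` in `L_p`, `p < 1`
-/

set_option autoImplicit false

open Finset

namespace Pool.Agent.X23.WL

/-- Parseval -/
theorem parseval (n : ℕ) : ∀ c : ℕ → ℝ,
    av n (fun x => (∑ i ∈ range (2 ^ n), c i * W i x) ^ 2) = ∑ i ∈ range (2 ^ n), c i ^ 2 := by
  induction n with
  | zero =>
    intro c
    rw [av_zero]
    simp [W_zero]
  | succ n ih =>
    intro c
    have e : ∀ (b : Bool) (x : Pt), ∑ i ∈ range (2 ^ (n + 1)), c i * W i (cons b x) =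
        ∑ i ∈ range (2 ^ n), (c (2 * i) + sg b * c (2 * i + 1)) * W i x := by
      intro b x
      rw [show (2 : ℕ) ^ (n + 1) = 2 * 2 ^ n from pow_succ' 2 n, sum_two_mul]
      refine Finset.sum_congr rfl fun i _ => ?_
      rw [W_two_mul, W_two_mul_add, tl_cons, cons_zero]
      ring
    rw [av_succ]
    simp only [e]
    rw [ih, ih, show (2 : ℕ) ^ (n + 1) = 2 * 2 ^ n from pow_succ' 2 n, sum_two_mul,
      ← sum_add_distrib, smul_eq_mul, Finset.mul_sum]
    refine Finset.sum_congr rfl fun i _ => ?_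
    rw [sg_false, sg_true]
    ring

/-- `∑_{r < n} c_r D_r` -/
noncomputable def T (c : ℕ → ℝ) (n : ℕ) (x : Pt) : ℝ := ∑ r ∈ range n, c r * D r x

/-- the transform of the coefficients -/
def U (c : ℕ → ℝ) : ℕ → ℝ := fun r => 2 * (c (2 * r) + c (2 * r + 1))

theorem T_two_mul (c : ℕ → ℝ) (n : ℕ) (x : Pt) :
    T c (2 * n) x = (1 + sg (x 0)) / 2 * T (U c) n (tl x) +
      ∑ r ∈ range n, c (2 * r + 1) * W r (tl x) := by
  unfold T
  rw [sum_two_mul, Finset.mul_sum, ← sum_add_distrib]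
  refine Finset.sum_congr rfl fun r _ => ?_
  rw [D_two_mul, D_two_mul_add]
  unfold U
  ring

/-- Jensen's inequality for averages. -/
theorem av_rpow_le {p : ℝ} (hp : 0 < p) (hp2 : p ≤ 2) (n : ℕ) (F : Pt → ℝ) :
    av n (fun x => |F x| ^ p) ≤ (av n (fun x => F x ^ 2)) ^ (p / 2) := by
  have h1 : (1 : ℝ) ≤ 2 / p := by rw [le_div_iff₀ hp]; linarith
  have h2 := Real.rpow_arith_mean_le_arith_mean_rpow (range (2 ^ n))
    (fun _ => ((2 : ℝ) ^ n)⁻¹) (fun a => |F (Nat.testBit a)| ^ p) (fun _ _ => by positivity)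
    (by rw [sum_const, card_range, nsmul_eq_mul]; push_cast
        exact mul_inv_cancel₀ (by positivity)) (fun _ _ => by positivity) h1
  rw [← Finset.mul_sum] at h2
  have h3 : ∀ a : ℕ, (|F (Nat.testBit a)| ^ p) ^ (2 / p) = F (Nat.testBit a) ^ 2 := by
    intro a
    rw [← Real.rpow_mul (abs_nonneg _), mul_div_cancel₀ _ hp.ne']
    rw [show (2 : ℝ) = ((2 : ℕ) : ℝ) by norm_num, Real.rpow_natCast, sq_abs]
  simp only [h3] at h2
  rw [← Finset.mul_sum] at h2
  have h4 : 0 ≤ av n (fun x => |F x| ^ p) := av_nonneg fun x => by positivity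
  have h5 : av n (fun x => |F x| ^ p) = ((av n (fun x => |F x| ^ p)) ^ (2 / p)) ^ (p / 2) := by
    rw [← Real.rpow_mul h4, show 2 / p * (p / 2) = 1 by field_simp, Real.rpow_one]
  rw [h5]
  apply Real.rpow_le_rpow (by positivity) _ (by positivity)
  exact h2

theorem abs_add_rpow_le {p : ℝ} (hp : 0 < p) (hp1 : p ≤ 1) (a b : ℝ) :
    |a + b| ^ p ≤ |a| ^ p + |b| ^ p :=
  (Real.rpow_le_rpow (abs_nonneg _) (abs_add_le a b) hp.le).trans
    (Real.rpow_add_le_add_rpow (abs_nonneg _) (abs_nonneg _) hp.le hp1)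

/-- the `p`-th power of the `L_p` quasi-norm of the kernel -/
noncomputable def J (p : ℝ) (n : ℕ) (c : ℕ → ℝ) : ℝ := av n (fun x => |T c (2 ^ n) x| ^ p)

theorem J_zero {p : ℝ} (hp : 0 < p) (c : ℕ → ℝ) : J p 0 c = 0 := by
  unfold J
  rw [av_zero]
  simp [T, D_zero, Real.zero_rpow hp.ne']

theorem J_succ {p : ℝ} (hp : 0 < p) (hp1 : p ≤ 1) (n : ℕ) (c : ℕ → ℝ) :
    J p (n + 1) c ≤ 1 / 2 * J p n (U c) + (∑ r ∈ range (2 ^ n), c (2 * r + 1) ^ 2) ^ (p / 2) := by
  set V : Pt → ℝ := fun x => ∑ r ∈ range (2 ^ n), c (2 * r + 1) * W r x with hV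
  have hVp : av n (fun x => |V x| ^ p) ≤ (∑ r ∈ range (2 ^ n), c (2 * r + 1) ^ 2) ^ (p / 2) := by
    have h1 := av_rpow_le hp (by linarith) n V
    rwa [hV, parseval n (fun r => c (2 * r + 1))] at h1
  have hf : ∀ x : Pt, |T c (2 ^ (n + 1)) (cons false x)| ^ p ≤
      |T (U c) (2 ^ n) x| ^ p + |V x| ^ p := by
    intro x
    rw [show (2 : ℕ) ^ (n + 1) = 2 * 2 ^ n from pow_succ' 2 n, T_two_mul, tl_cons, cons_zero,
      sg_false]
    norm_num
    exact abs_add_rpow_le hp hp1 _ _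
  have ht : ∀ x : Pt, |T c (2 ^ (n + 1)) (cons true x)| ^ p = |V x| ^ p := by
    intro x
    rw [show (2 : ℕ) ^ (n + 1) = 2 * 2 ^ n from pow_succ' 2 n, T_two_mul, tl_cons, cons_zero,
      sg_true]
    norm_num
    rfl
  unfold J
  rw [av_succ, smul_eq_mul]
  simp only [ht]
  have h2 := (av_mono (n := n) hf).trans_eq (av_add n _ _)
  linarith

/-- Main estimate of the kernels. -/
theorem J_le {p : ℝ} (hp : 0 < p) (hp1 : p ≤ 1) (n : ℕ) : ∀ (c : ℕ → ℝ) (a : ℕ → ℝ) (S : ℝ),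
    (∀ r, 0 ≤ c r) → (∀ s m, ∑ β ∈ range (2 ^ s), c (2 ^ s * m + β) ≤ a s) →
    ∑ r ∈ range (2 ^ n), c r ≤ S →
    J p n c ≤ S ^ (p / 2) * ∑ s ∈ range n, ((2 : ℝ) ^ (p - 1)) ^ s * a s ^ (p / 2) := by
  induction n with
  | zero =>
    intro c a S _ _ _
    rw [J_zero hp]
    simp
  | succ n ih =>
    intro c a S hc ha hS
    have ha0 : ∀ r, c r ≤ a 0 := by
      intro r
      have := ha 0 r
      simpa using this
    have haN : ∀ s, 0 ≤ a s := fun s =>
      (Finset.sum_nonneg fun β _ => hc _).trans (ha s 0)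
    have hS0 : 0 ≤ S := (Finset.sum_nonneg fun r _ => hc r).trans hS
    have hUc : ∀ r, 0 ≤ U c r := by
      intro r
      unfold U
      have := hc (2 * r)
      have := hc (2 * r + 1)
      positivity
    have hUa : ∀ s m, ∑ β ∈ range (2 ^ s), U c (2 ^ s * m + β) ≤ 2 * a (s + 1) := by
      intro s m
      have h1 := ha (s + 1) m
      rw [show (2 : ℕ) ^ (s + 1) = 2 * 2 ^ s from pow_succ' 2 s, sum_two_mul] at h1
      unfold U
      rw [← Finset.mul_sum]
      have h2 : ∀ β, c (2 * (2 ^ s * m + β)) + c (2 * (2 ^ s * m + β) + 1) =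
          c (2 * 2 ^ s * m + 2 * β) + c (2 * 2 ^ s * m + (2 * β + 1)) := by
        intro β
        congr 2 <;> ring
      simp only [h2]
      linarith
    have hUS : ∑ r ∈ range (2 ^ n), U c r ≤ 2 * S := by
      rw [show (2 : ℕ) ^ (n + 1) = 2 * 2 ^ n from pow_succ' 2 n, sum_two_mul] at hS
      unfold U
      rw [← Finset.mul_sum]
      linarith
    have h1 := ih (U c) (fun s => 2 * a (s + 1)) (2 * S) hUc hUa hUS
    have h2 := J_succ hp hp1 n c
    have h3 : ∑ r ∈ range (2 ^ n), c (2 * r + 1) ^ 2 ≤ a 0 * S := by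
      calc ∑ r ∈ range (2 ^ n), c (2 * r + 1) ^ 2 ≤
            ∑ r ∈ range (2 ^ n), a 0 * (c (2 * r) + c (2 * r + 1)) := by
            refine Finset.sum_le_sum fun r _ => ?_
            have e1 := hc (2 * r)
            have e2 := hc (2 * r + 1)
            have e3 := ha0 (2 * r + 1)
            have e4 := haN 0
            nlinarith [mul_nonneg e4 e1, mul_le_mul_of_nonneg_right e3 e2]
        _ = a 0 * ∑ r ∈ range (2 ^ (n + 1)), c r := by
            rw [← Finset.mul_sum, show (2 : ℕ) ^ (n + 1) = 2 * 2 ^ n from pow_succ' 2 n,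
              sum_two_mul]
        _ ≤ a 0 * S := by
            gcongr
            exact haN 0
    have h4 : (∑ r ∈ range (2 ^ n), c (2 * r + 1) ^ 2) ^ (p / 2) ≤ S ^ (p / 2) * a 0 ^ (p / 2) := by
      rw [← Real.mul_rpow hS0 (haN 0), mul_comm S]
      exact Real.rpow_le_rpow (Finset.sum_nonneg fun r _ => sq_nonneg _) h3 (by positivity)
    have h5 : 1 / 2 * ((2 * S) ^ (p / 2) *
        ∑ s ∈ range n, ((2 : ℝ) ^ (p - 1)) ^ s * (2 * a (s + 1)) ^ (p / 2)) =
        S ^ (p / 2) * ∑ s ∈ range n, ((2 : ℝ) ^ (p - 1)) ^ (s + 1) * a (s + 1) ^ (p / 2) := by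
      rw [Real.mul_rpow (by norm_num) hS0, Finset.mul_sum, Finset.mul_sum, Finset.mul_sum]
      refine Finset.sum_congr rfl fun s _ => ?_
      rw [Real.mul_rpow (by norm_num) (haN _), pow_succ]
      have e : (2 : ℝ) ^ (p - 1) = (2 : ℝ) ^ (p / 2) * (2 : ℝ) ^ (p / 2) * (1 / 2) := by
        rw [← Real.rpow_add (by norm_num), add_halves, Real.rpow_sub_one (by norm_num)]
        ring
      rw [e]
      ring
    rw [Finset.sum_range_succ', mul_add, pow_zero, one_mul]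
    have h6 : 1 / 2 * J p n (U c) ≤ S ^ (p / 2) *
        ∑ s ∈ range n, ((2 : ℝ) ^ (p - 1)) ^ (s + 1) * a (s + 1) ^ (p / 2) := by
      rw [← h5]
      gcongr
    linarith

/-- A constant for `J_le`. -/
theorem exists_Kp {p : ℝ} (hp : 0 < p) (hp1 : p < 1) : ∃ K : ℝ, 0 ≤ K ∧ ∀ n : ℕ,
    ∑ s ∈ range n, ((2 : ℝ) ^ (p - 1)) ^ s * ((s : ℝ) + 1) ≤ K := by
  set q : ℝ := (2 : ℝ) ^ (p - 1) with hq
  have hq0 : 0 < q := by positivity
  have hq1 : q < 1 := Real.rpow_lt_one_of_one_lt_of_neg (by norm_num) (by linarith)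
  have h1 : Summable fun s : ℕ => q ^ s * ((s : ℝ) + 1) := by
    have h2 : Summable fun s : ℕ => (s : ℝ) ^ 1 * q ^ s :=
      summable_pow_mul_geometric_of_norm_lt_one 1 (by rw [Real.norm_of_nonneg hq0.le]; exact hq1)
    have h3 : Summable fun s : ℕ => q ^ s := summable_geometric_of_lt_one hq0.le hq1
    refine (h2.add h3).congr fun s => ?_
    ring
  exact ⟨∑' s : ℕ, q ^ s * ((s : ℝ) + 1), tsum_nonneg fun s => by positivity,
    fun n => h1.sum_le_tsum _ fun s _ => by positivity⟩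

end Pool.Agent.X23.WL
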