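import Pool.Agent.X23.WL.Meas

/-!
# Weak convergence of the logarithmic means
-/

set_option autoImplicit false

open Finset Filter Topology MeasureTheory
open scoped ENNReal

namespace Pool.Agent.X23.WL

/-- the maximal function of the tail -/
noncomputable def sm (f : ℕ → Pt → ℂ) (n : ℕ) (x : Pt) : ℝ≥0∞ := ⨆ k, ‖f k x - f (min k n) x‖ₑ

/-- the `p`-th power of the modulus of continuity -/
noncomputable def om (p : ℝ) (f : ℕ → Pt → ℂ) (n : ℕ) : ℝ≥0∞ := ∫⁻ x, sm f n x ^ p ∂mu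

theorem sub_lev {f : ℕ → Pt → ℂ} (hf : IsMart f) (k n : ℕ) :
    Lev k (fun x => f k x - f (min k n) x) := by
  intro x y hxy
  beta_reduce
  rw [hf.lev k x y hxy, hf.lev (min k n) x y fun j hj => hxy j (lt_of_lt_of_le hj (min_le_left _ _))]

theorem sm_meas {f : ℕ → Pt → ℂ} (hf : IsMart f) (n : ℕ) : Measurable (sm f n) :=
  Measurable.iSup fun k => (sub_lev hf k n).meas.enorm

theorem le_sm (f : ℕ → Pt → ℂ) {k n : ℕ} (h : n ≤ k) (x : Pt) : ‖f k x - f n x‖ₑ ≤ sm f n x := by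
  have := le_iSup (fun k => ‖f k x - f (min k n) x‖ₑ) k
  rwa [min_eq_right h] at this

theorem av_le_om {p : ℝ} (hp : 0 < p) {f : ℕ → Pt → ℂ} (hf : IsMart f) {k n : ℕ} (h : n ≤ k) :
    ENNReal.ofReal (av k (fun x => ‖f k x - f n x‖ ^ p)) ≤ om p f n := by
  have h1 : Lev k fun x => ‖f k x - f n x‖ ^ p := by
    intro x y hxy
    beta_reduce
    rw [hf.lev k x y hxy, hf.lev n x y fun j hj => hxy j (lt_of_lt_of_le hj h)]
  rw [← lint_ofReal h1 (fun x => by positivity)]
  apply lintegral_mono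
  intro x
  beta_reduce
  rw [← ENNReal.ofReal_rpow_of_nonneg (norm_nonneg _) hp.le, ofReal_norm_eq_enorm]
  exact ENNReal.rpow_le_rpow (le_sm f h x) hp.le

theorem exists_lim {p : ℝ} (hp : 0 < p) {f : ℕ → Pt → ℂ} (hf : IsMart f)
    (ho : Tendsto (om p f) atTop (𝓝 0)) : ∃ F, IsLim f F := by
  have h1 : ∫⁻ x, liminf (fun n => sm f n x ^ p) atTop ∂mu ≤ 0 := by
    refine (lintegral_liminf_le fun n => (sm_meas hf n).pow_const p).trans ?_
    have h2 : liminf (fun n => ∫⁻ x, sm f n x ^ p ∂mu) atTop = 0 := ho.liminf_eq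
    rw [h2]
  have h2 : ∀ᵐ x ∂mu, liminf (fun n => sm f n x ^ p) atTop = 0 := by
    rw [nonpos_iff_eq_zero, lintegral_eq_zero_iff
      (Measurable.liminf fun n => (sm_meas hf n).pow_const p)] at h1
    exact h1
  refine ⟨fun x => limUnder atTop (fun n => f n x), ?_⟩
  unfold IsLim
  filter_upwards [h2] with x hx
  apply CauchySeq.tendsto_limUnder
  rw [Metric.cauchySeq_iff']
  intro δ hδ
  have h3 : liminf (fun n => sm f n x ^ p) atTop < ENNReal.ofReal δ ^ p := by
    rw [hx]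
    exact ENNReal.rpow_pos (ENNReal.ofReal_pos.2 hδ) ENNReal.ofReal_ne_top
  obtain ⟨n, hn⟩ := (frequently_lt_of_liminf_lt (by isBoundedDefault) h3).exists
  refine ⟨n, fun k hk => ?_⟩
  have h4 : sm f n x < ENNReal.ofReal δ := (ENNReal.rpow_lt_rpow_iff hp).1 hn
  have h5 := lt_of_le_of_lt (le_sm f hk x) h4
  rw [← ofReal_norm_eq_enorm, ENNReal.ofReal_lt_ofReal_iff hδ] at h5
  rwa [dist_eq_norm]

theorem lim_le {f : ℕ → Pt → ℂ} {F : Pt → ℂ} (hF : IsLim f F) (m : ℕ) :
    ∀ᵐ x ∂mu, ‖F x - f m x‖ₑ ≤ sm f m x := by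
  unfold IsLim at hF
  filter_upwards [hF] with x hx
  have h1 : Tendsto (fun k => ‖f k x - f m x‖ₑ) atTop (𝓝 ‖F x - f m x‖ₑ) :=
    (hx.sub_const _).enorm
  apply le_of_tendsto h1
  filter_upwards [eventually_ge_atTop m] with k hk
  exact le_sm f hk x

theorem weak_main {p : ℝ} (hp : 0 < p) {f : ℕ → Pt → ℂ} (hf : IsMart f)
    (ho : Tendsto (om p f) atTop (𝓝 0)) (hFL : FL p f) {c : ℕ → ℂ} (hc : IsCoef f c)
    {F : Pt → ℂ} (hF : IsLim f F) :
    Tendsto (fun k => wN p (fun x => L c k x - F x)) atTop (𝓝 0) := by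
  have key : Tendsto (fun k => ⨆ (t : ℝ) (_ : 0 < t),
      ENNReal.ofReal (t ^ p) * mu {x | t < ‖L c k x - F x‖}) atTop (𝓝 0) := by
    rw [ENNReal.tendsto_nhds_zero]
    intro ε hε
    obtain ⟨δ, hδ0, hδ⟩ := ENNReal.lt_iff_exists_nnreal_btwn.1 hε
    have hδ1 : (0 : ℝ) < δ := by
      have : (0 : NNReal) < δ := by exact_mod_cast hδ0
      exact_mod_cast this
    set e : ℝ := δ / (2 * 2 ^ p) with he
    have he0 : 0 < e := by positivity
    obtain ⟨m0, hm0⟩ := hFL e he0
    obtain ⟨m1, hm1⟩ := eventually_atTop.1 (ENNReal.tendsto_nhds_zero.1 ho (ENNReal.ofReal e)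
      (ENNReal.ofReal_pos.2 he0))
    set m := max m0 m1 with hm
    obtain ⟨N0, hN0⟩ := hm0 m (le_max_left _ _)
    have hom := hm1 m (le_max_right _ _)
    filter_upwards [eventually_ge_atTop (2 ^ (max N0 m))] with k hk
    set N := Nat.log 2 k with hN
    have hk0 : k ≠ 0 := by
      have : 0 < 2 ^ (max N0 m) := by positivity
      omega
    have hk1 : 2 ^ N ≤ k := Nat.pow_log_le_self 2 hk0
    have hk2 : k < 2 ^ (N + 1) := Nat.lt_pow_succ_log_self (by norm_num) k
    have hNN : max N0 m ≤ N := by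
      have := Nat.log_mono_right (b := 2) hk
      rwa [Nat.log_pow (by norm_num)] at this
    have hNN0 : N0 ≤ N := le_trans (le_max_left _ _) hNN
    have hNm : m ≤ N := le_trans (le_max_right _ _) hNN
    refine iSup₂_le fun t ht => ?_
    have ht2 : 0 < t / 2 := half_pos ht
    have h1 := hN0 N hNN0 k hk1 hk2 (t / 2) ht2
    set g : Pt → ℂ := fun x => Lm k (N + 1) (f (N + 1)) x - f m x with hg
    have hA : Lev (N + 1) (A k) := by
      intro x y hxy
      unfold A
      refine Finset.sum_congr rfl fun r hr => ?_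
      have hr' := mem_range.1 hr
      rw [D_lev (show r ≤ 2 ^ (N + 1) by omega) x y hxy]
    have hgl : Lev (N + 1) g := by
      intro x y hxy
      rw [hg]
      beta_reduce
      unfold Lm
      rw [cv_lev hA x y hxy, hf.lev m x y fun j hj => hxy j (by omega)]
    have hgn : Lev (N + 1) fun x => ‖g x‖ := by
      intro x y hxy
      beta_reduce
      rw [hgl x y hxy]
    have hsub : mu {x | t < ‖L c k x - F x‖} ≤
        mu ({x | t / 2 ≤ ‖g x‖} ∪ {x | ENNReal.ofReal (t / 2) ≤ sm f m x}) := by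
      apply measure_mono_ae
      filter_upwards [lim_le hF m] with x hx
      intro hx2
      change t < ‖L c k x - F x‖ at hx2
      change t / 2 ≤ ‖g x‖ ∨ ENNReal.ofReal (t / 2) ≤ sm f m x
      by_contra hcon
      push Not at hcon
      obtain ⟨h3, h4⟩ := hcon
      have h5 := lt_of_le_of_lt hx h4
      rw [← ofReal_norm_eq_enorm, ENNReal.ofReal_lt_ofReal_iff ht2] at h5
      rw [L_eq hf hc hk2.le x] at hx2
      have h6 : Lm k (N + 1) (f (N + 1)) x - F x = g x - (F x - f m x) := by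
        rw [hg]
        ring
      rw [h6] at hx2
      have h7 := norm_sub_le (g x) (F x - f m x)
      linarith
    have h2p : ENNReal.ofReal (t ^ p) = ENNReal.ofReal (2 ^ p) * ENNReal.ofReal ((t / 2) ^ p) := by
      rw [← ENNReal.ofReal_mul (by positivity), ← Real.mul_rpow (by norm_num) ht2.le]
      congr 2
      ring
    have e1 : ENNReal.ofReal ((t / 2) ^ p) * mu {x | t / 2 ≤ ‖g x‖} ≤ ENNReal.ofReal e := by
      rw [mu_lev hgn, ← ENNReal.ofReal_mul (by positivity)]
      exact ENNReal.ofReal_le_ofReal h1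
    have e2 : ENNReal.ofReal ((t / 2) ^ p) * mu {x | ENNReal.ofReal (t / 2) ≤ sm f m x} ≤
        ENNReal.ofReal e := by
      have e3 : {x | ENNReal.ofReal (t / 2) ≤ sm f m x} =
          {x | ENNReal.ofReal ((t / 2) ^ p) ≤ sm f m x ^ p} := by
        ext x
        simp only [Set.mem_setOf_eq]
        rw [← ENNReal.ofReal_rpow_of_pos ht2, ENNReal.rpow_le_rpow_iff hp]
      rw [e3]
      exact (mul_meas_ge_le_lintegral ((sm_meas hf m).pow_const p) _).trans hom
    calc ENNReal.ofReal (t ^ p) * mu {x | t < ‖L c k x - F x‖} ≤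
          ENNReal.ofReal (2 ^ p) * ENNReal.ofReal ((t / 2) ^ p) *
            (mu {x | t / 2 ≤ ‖g x‖} + mu {x | ENNReal.ofReal (t / 2) ≤ sm f m x}) := by
          rw [h2p]
          gcongr
          exact hsub.trans (measure_union_le _ _)
      _ = ENNReal.ofReal (2 ^ p) * (ENNReal.ofReal ((t / 2) ^ p) * mu {x | t / 2 ≤ ‖g x‖} +
            ENNReal.ofReal ((t / 2) ^ p) * mu {x | ENNReal.ofReal (t / 2) ≤ sm f m x}) := by
          rw [mul_assoc, mul_add]
      _ ≤ ENNReal.ofReal (2 ^ p) * (ENNReal.ofReal e + ENNReal.ofReal e) := by gcongr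
      _ = ENNReal.ofReal δ := by
          rw [← ENNReal.ofReal_add he0.le he0.le, ← ENNReal.ofReal_mul (by positivity)]
          congr 1
          rw [he]
          field_simp
          ring
      _ ≤ ε := by
          rw [ENNReal.ofReal_coe_nnreal]
          exact hδ.le
  have h2 : 0 < 1 / p := by positivity
  have h3 := (ENNReal.continuous_rpow_const (y := 1 / p)).tendsto 0 |>.comp key
  rw [ENNReal.zero_rpow_of_pos h2] at h3
  exact h3

theorem om_le {p : ℝ} (hp : 0 < p) {f : ℕ → Pt → ℂ} {n : ℕ} {b : ℝ}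
    (h : hN p (fun k x => f k x - f (min k n) x) ≤ ENNReal.ofReal b) :
    om p f n ≤ ENNReal.ofReal b ^ p := by
  have h1 : hN p (fun k x => f k x - f (min k n) x) = om p f n ^ (1 / p) := rfl
  rw [h1] at h
  have h2 := ENNReal.rpow_le_rpow h hp.le
  rwa [← ENNReal.rpow_mul, one_div, inv_mul_cancel₀ hp.ne', ENNReal.rpow_one] at h2

/-- **Answer: no.** -/
theorem main (p : ℝ) (hp : 0 < p) (hp1 : p ≤ 1) (f : ℕ → Pt → ℂ) (hf : IsMart f)
    (hmod : ∃ C : ℝ, ∀ᶠ n : ℕ in atTop, hN p (fun k x => f k x - f (min k n) x) ≤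
      ENNReal.ofReal (C * (Real.log n / ((2 : ℝ) ^ (n * (1 / p - 1)) *
        Real.log n ^ (2 * ⌊p⌋₊))))) :
    (∃ c, IsCoef f c) ∧ (∃ F, IsLim f F) ∧ ∀ c F, IsCoef f c → IsLim f F →
      Tendsto (fun k => wN p (fun x => L c k x - F x)) atTop (𝓝 0) := by
  obtain ⟨C, hC'⟩ := hmod
  obtain ⟨n0, hC''⟩ := eventually_atTop.1 hC'
  set n1 := max n0 2 with hn1
  have hn12 : 2 ≤ n1 := le_max_right _ _
  have hC : ∀ n : ℕ, n1 ≤ n → hN p (fun k x => f k x - f (min k n) x) ≤
      ENNReal.ofReal (C * (Real.log n / ((2 : ℝ) ^ (n * (1 / p - 1)) *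
        Real.log n ^ (2 * ⌊p⌋₊)))) :=
    fun n hn => hC'' n (le_trans (le_max_left _ _) hn)
  have hom : ∀ n : ℕ, n1 ≤ n → om p f n ≤ ENNReal.ofReal (C * (Real.log n /
      ((2 : ℝ) ^ (n * (1 / p - 1)) * Real.log n ^ (2 * ⌊p⌋₊)))) ^ p :=
    fun n hn => om_le hp (hC n hn)
  suffices h : Tendsto (om p f) atTop (𝓝 0) ∧ FL p f from
    ⟨exists_coef hf, exists_lim hp hf h.1, fun c F hc hF => weak_main hp hf h.1 h.2 hc hF⟩
  rcases hp1.lt_or_eq with hlt | heq
  · have hfl : ⌊p⌋₊ = 0 := Nat.floor_eq_zero.2 hlt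
    rw [hfl] at hom
    set C1 : ℝ := max C 0 with hC1
    have hC10 : 0 ≤ C1 := le_max_right _ _
    have hb : ∀ n : ℕ, n1 ≤ n → om p f n ≤
        ENNReal.ofReal ((4 * C1) ^ p * ((n : ℝ) + 1) ^ (p / 4) / ((2 : ℝ) ^ n) ^ (1 - p)) := by
      intro n hn
      have hn' : (2 : ℝ) ≤ n := by exact_mod_cast hn12.trans hn
      have hlog0 : 0 ≤ Real.log n := Real.log_nonneg (by linarith)
      have hlog : Real.log n ≤ 4 * ((n : ℝ) + 1) ^ (1 / 4 : ℝ) := by
        have h1 := Real.log_le_rpow_div (x := (n : ℝ)) (by linarith) (show (0 : ℝ) < 1 / 4 by norm_num)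
        have h2 : (n : ℝ) ^ (1 / 4 : ℝ) ≤ ((n : ℝ) + 1) ^ (1 / 4 : ℝ) :=
          Real.rpow_le_rpow (by linarith) (by linarith) (by norm_num)
        calc Real.log n ≤ (n : ℝ) ^ (1 / 4 : ℝ) / (1 / 4) := h1
          _ = 4 * (n : ℝ) ^ (1 / 4 : ℝ) := by ring
          _ ≤ _ := by gcongr
      refine (hom n hn).trans ?_
      rw [mul_zero, pow_zero, mul_one]
      have h3 : C * (Real.log n / (2 : ℝ) ^ (n * (1 / p - 1))) ≤
          4 * C1 * ((n : ℝ) + 1) ^ (1 / 4 : ℝ) / (2 : ℝ) ^ (n * (1 / p - 1)) := by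
        have h4 : 0 ≤ Real.log n / (2 : ℝ) ^ ((n : ℝ) * (1 / p - 1)) := by positivity
        calc C * (Real.log n / (2 : ℝ) ^ ((n : ℝ) * (1 / p - 1))) ≤
              C1 * (Real.log n / (2 : ℝ) ^ ((n : ℝ) * (1 / p - 1))) := by
              gcongr
              exact le_max_left _ _
          _ ≤ C1 * (4 * ((n : ℝ) + 1) ^ (1 / 4 : ℝ) / (2 : ℝ) ^ ((n : ℝ) * (1 / p - 1))) := by
              gcongr
          _ = _ := by ring
      refine (ENNReal.rpow_le_rpow (ENNReal.ofReal_le_ofReal h3) hp.le).trans ?_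
      rw [ENNReal.ofReal_rpow_of_nonneg (by positivity) hp.le]
      apply ENNReal.ofReal_le_ofReal
      rw [Real.div_rpow (by positivity) (by positivity), Real.mul_rpow (by positivity)
        (by positivity), ← Real.rpow_mul (by positivity), ← Real.rpow_mul (by norm_num),
        ← Real.rpow_natCast (2 : ℝ) n, ← Real.rpow_mul (by norm_num)]
      rw [show (1 / 4 : ℝ) * p = p / 4 by ring,
        show (n : ℝ) * (1 / p - 1) * p = (n : ℝ) * (1 - p) by field_simp]
    obtain ⟨K, hK0, hK⟩ := exists_Kp hp hlt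
    have hsum : Summable fun j : ℕ => ((2 : ℝ) ^ (p - 1)) ^ j * ((j : ℝ) + 1) :=
      summable_of_sum_range_le (fun j => by positivity) hK
    have hpow : ∀ j : ℕ, ((2 : ℝ) ^ (p - 1)) ^ j * ((2 : ℝ) ^ j) ^ (1 - p) = 1 := by
      intro j
      rw [← Real.rpow_natCast ((2 : ℝ) ^ (p - 1)), ← Real.rpow_natCast (2 : ℝ),
        ← Real.rpow_mul (by norm_num), ← Real.rpow_mul (by norm_num),
        ← Real.rpow_add (by norm_num)]
      rw [show (p - 1) * (j : ℝ) + (j : ℝ) * (1 - p) = 0 by ring, Real.rpow_zero]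
    constructor
    · have h1 : Tendsto (fun n : ℕ => ENNReal.ofReal ((4 * C1) ^ p *
          (((2 : ℝ) ^ (p - 1)) ^ n * ((n : ℝ) + 1)))) atTop (𝓝 0) := by
        have h2 := hsum.tendsto_atTop_zero.const_mul ((4 * C1) ^ p)
        rw [mul_zero] at h2
        have h3 := ENNReal.tendsto_ofReal h2
        rwa [ENNReal.ofReal_zero] at h3
      refine tendsto_of_tendsto_of_tendsto_of_le_of_le' tendsto_const_nhds h1
        (Eventually.of_forall fun n => bot_le) ?_
      filter_upwards [eventually_ge_atTop n1] with n hn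
      refine (hb n hn).trans (ENNReal.ofReal_le_ofReal ?_)
      have h3 : ((n : ℝ) + 1) ^ (p / 4) ≤ (n : ℝ) + 1 := by
        calc ((n : ℝ) + 1) ^ (p / 4) ≤ ((n : ℝ) + 1) ^ (1 : ℝ) := by
              apply Real.rpow_le_rpow_of_exponent_le _ (by linarith)
              have : (0 : ℝ) ≤ n := by positivity
              linarith
          _ = _ := Real.rpow_one _
      have h5 : (0 : ℝ) < ((2 : ℝ) ^ n) ^ (1 - p) := by positivity
      rw [div_le_iff₀ h5]
      calc (4 * C1) ^ p * ((n : ℝ) + 1) ^ (p / 4) ≤ (4 * C1) ^ p * ((n : ℝ) + 1) := by gcongr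
        _ = (4 * C1) ^ p * ((n : ℝ) + 1) *
            (((2 : ℝ) ^ (p - 1)) ^ n * ((2 : ℝ) ^ n) ^ (1 - p)) := by rw [hpow, mul_one]
        _ = _ := by ring
    · set a : ℕ → ℝ := fun j => av (j + 1) (fun x => ‖f (j + 1) x - f j x‖ ^ p) with haj
      have ha0 : ∀ j, 0 ≤ a j := fun j => av_nonneg fun x => by positivity
      have hC40 : 0 ≤ (4 * C1) ^ p := by positivity
      have hb0 : ∀ j, 0 ≤ a j * ((2 : ℝ) ^ j) ^ (1 - p) := fun j => by
        have := ha0 j
        positivity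
      have hS0 : 0 ≤ ∑ j ∈ range n1, a j * ((2 : ℝ) ^ j) ^ (1 - p) :=
        Finset.sum_nonneg fun j _ => hb0 j
      apply FL_p hp hlt f hf.lev
        (C := (4 * C1) ^ p + ∑ j ∈ range n1, a j * ((2 : ℝ) ^ j) ^ (1 - p)) (by positivity)
      intro j
      have hj1 : 1 ≤ ((j : ℝ) + 1) ^ (p / 4) := by
        apply Real.one_le_rpow _ (by positivity)
        have : (0 : ℝ) ≤ j := by positivity
        linarith
      change a j * ((2 : ℝ) ^ j) ^ (1 - p) ≤ _
      by_cases hj : n1 ≤ j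
      · have h1 := (av_le_om hp hf (show j ≤ j + 1 by omega)).trans (hb j hj)
        have h5 : (0 : ℝ) < ((2 : ℝ) ^ j) ^ (1 - p) := by positivity
        rw [ENNReal.ofReal_le_ofReal_iff (by positivity), le_div_iff₀ h5] at h1
        refine h1.trans ?_
        gcongr
        linarith
      · have h2 : a j * ((2 : ℝ) ^ j) ^ (1 - p) ≤
            ∑ j ∈ range n1, a j * ((2 : ℝ) ^ j) ^ (1 - p) :=
          Finset.single_le_sum (f := fun j => a j * ((2 : ℝ) ^ j) ^ (1 - p))
            (fun i _ => hb0 i) (mem_range.2 (by omega))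
        refine h2.trans ?_
        nlinarith
  · subst heq
    have hfl : ⌊(1 : ℝ)⌋₊ = 1 := Nat.floor_one
    rw [hfl] at hom
    have hb : ∀ n : ℕ, n1 ≤ n → om 1 f n ≤ ENNReal.ofReal (C * (Real.log n)⁻¹) := by
      intro n hn
      have hn' : (2 : ℝ) ≤ n := by exact_mod_cast hn12.trans hn
      have hlog0 : 0 < Real.log n := Real.log_pos (by linarith)
      have h1 := hom n hn
      rw [ENNReal.rpow_one] at h1
      refine h1.trans (le_of_eq ?_)
      congr 2
      rw [show (n : ℝ) * (1 / 1 - 1) = 0 by norm_num, Real.rpow_zero, one_mul, mul_one]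
      field_simp
    have hlim : Tendsto (fun n : ℕ => C * (Real.log n)⁻¹) atTop (𝓝 0) := by
      have h1 : Tendsto (fun n : ℕ => (Real.log n)⁻¹) atTop (𝓝 0) :=
        (Real.tendsto_log_atTop.comp tendsto_natCast_atTop_atTop).inv_tendsto_atTop
      have h2 := h1.const_mul C
      rwa [mul_zero] at h2
    have h0 : Tendsto (om 1 f) atTop (𝓝 0) := by
      have h3 := ENNReal.tendsto_ofReal hlim
      rw [ENNReal.ofReal_zero] at h3
      refine tendsto_of_tendsto_of_tendsto_of_le_of_le' tendsto_const_nhds h3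
        (Eventually.of_forall fun n => bot_le) ?_
      filter_upwards [eventually_ge_atTop n1] with n hn
      exact hb n hn
    refine ⟨h0, ?_⟩
    have hlim' : Tendsto (fun n : ℕ => max C 0 * (Real.log n)⁻¹) atTop (𝓝 0) := by
      have h1 : Tendsto (fun n : ℕ => (Real.log n)⁻¹) atTop (𝓝 0) :=
        (Real.tendsto_log_atTop.comp tendsto_natCast_atTop_atTop).inv_tendsto_atTop
      have h2 := h1.const_mul (max C 0)
      rwa [mul_zero] at h2
    apply FL_one f hf.lev _ hlim' n1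
    intro m M hm hmM
    have hn' : (2 : ℝ) ≤ m := by exact_mod_cast hn12.trans hm
    have hlog0 : 0 < Real.log m := Real.log_pos (by linarith)
    have h1 := (av_le_om one_pos hf hmM).trans (hb m hm)
    simp only [Real.rpow_one] at h1
    have h2 : C * (Real.log m)⁻¹ ≤ max C 0 * (Real.log m)⁻¹ := by
      gcongr
      exact le_max_left _ _
    have h3 := h1.trans (ENNReal.ofReal_le_ofReal h2)
    have h4 : 0 ≤ max C 0 * (Real.log m)⁻¹ := mul_nonneg (le_max_right _ _) (by positivity)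
    rwa [ENNReal.ofReal_le_ofReal_iff h4] at h3

end Pool.Agent.X23.WL
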