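import Pool.Agent.X23.WL.Dec

/-!
# Estimates of the logarithmic means on finite levels
-/

set_option autoImplicit false

open Finset

namespace Pool.Agent.X23.WL

theorem block_le (L u : ℕ) : ∑ β ∈ range L, 1 / ((u - β : ℕ) : ℝ) ≤ l L := by
  have key : ∀ u : ℕ, ∑ β ∈ range u, 1 / ((u - β : ℕ) : ℝ) = l u := by
    intro u
    unfold l
    rw [← Finset.sum_range_reflect]
    refine Finset.sum_congr rfl fun r hr => ?_
    have hr' := mem_range.1 hr
    rw [show u - (u - 1 - r) = r + 1 by omega]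
    push_cast
    rfl
  rcases le_total L u with h | h
  · rw [← key L]
    refine Finset.sum_le_sum fun β hβ => ?_
    have hβ' := mem_range.1 hβ
    apply one_div_le_one_div_of_le
    · have : 0 < L - β := by omega
      exact_mod_cast this
    · have : L - β ≤ u - β := by omega
      exact_mod_cast this
  · obtain ⟨d, rfl⟩ := Nat.exists_eq_add_of_le h
    rw [sum_range_add, key]
    have : ∑ x ∈ range d, 1 / ((u - (u + x) : ℕ) : ℝ) = 0 := by
      apply Finset.sum_eq_zero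
      intro x _
      rw [show u - (u + x) = 0 by omega]
      simp
    rw [this, add_zero]
    exact l_mono (by omega)

theorem sum_inv_eq (k : ℕ) : ∑ r ∈ range k, 1 / ((k - r : ℕ) : ℝ) = l k := by
  unfold l
  rw [← Finset.sum_range_reflect]
  refine Finset.sum_congr rfl fun r hr => ?_
  have hr' := mem_range.1 hr
  rw [show k - (k - 1 - r) = r + 1 by omega]
  push_cast
  rfl

theorem A_p {p K : ℝ} (hp : 0 < p) (hp1 : p < 1)
    (hK : ∀ n : ℕ, ∑ s ∈ range n, ((2 : ℝ) ^ (p - 1)) ^ s * ((s : ℝ) + 1) ≤ K)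
    {k M : ℕ} (hk : k ≤ 2 ^ M) : av M (fun x => |A k x| ^ p) ≤ l k ^ (p / 2) * K := by
  set c : ℕ → ℝ := fun r => 1 / ((k - r : ℕ) : ℝ) with hc
  have hA : ∀ x, A k x = T c (2 ^ M) x := by
    intro x
    obtain ⟨d, hd⟩ := Nat.exists_eq_add_of_le hk
    unfold A T
    rw [hd, sum_range_add]
    have : ∑ r ∈ range d, c (k + r) * D (k + r) x = 0 := by
      apply Finset.sum_eq_zero
      intro r _
      have : c (k + r) = 0 := by
        change 1 / ((k - (k + r) : ℕ) : ℝ) = 0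
        rw [show k - (k + r) = 0 by omega]
        simp
      rw [this, zero_mul]
    rw [this, add_zero]
    exact Finset.sum_congr rfl fun r _ => mul_comm _ _
  have h1 : J p M c ≤ l k ^ (p / 2) *
      ∑ s ∈ range M, ((2 : ℝ) ^ (p - 1)) ^ s * ((s : ℝ) + 1) ^ (p / 2) := by
    apply J_le hp hp1.le M c (fun s => (s : ℝ) + 1) (l k)
    · intro r
      positivity
    · intro s m
      refine le_trans ?_ (l_two_pow_le s)
      refine le_trans (le_of_eq ?_) (block_le (2 ^ s) (k - 2 ^ s * m))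
      refine Finset.sum_congr rfl fun β _ => ?_
      change 1 / ((k - (2 ^ s * m + β) : ℕ) : ℝ) = _
      rw [Nat.sub_sub]
    · obtain ⟨d, hd⟩ := Nat.exists_eq_add_of_le hk
      rw [hd, sum_range_add]
      have : ∑ r ∈ range d, c (k + r) = 0 := by
        apply Finset.sum_eq_zero
        intro r _
        change 1 / ((k - (k + r) : ℕ) : ℝ) = 0
        rw [show k - (k + r) = 0 by omega]
        simp
      rw [this, add_zero]
      exact (sum_inv_eq k).le
  have h2 : av M (fun x => |A k x| ^ p) = J p M c := by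
    unfold J
    congr 1
    funext x
    rw [hA]
  rw [h2]
  refine h1.trans ?_
  have h3 := l_nonneg k
  gcongr
  refine le_trans (Finset.sum_le_sum fun s _ => ?_) (hK M)
  gcongr
  have h4 : (1 : ℝ) ≤ (s : ℝ) + 1 := by
    have : (0 : ℝ) ≤ s := by positivity
    linarith
  calc ((s : ℝ) + 1) ^ (p / 2) ≤ ((s : ℝ) + 1) ^ (1 : ℝ) :=
        Real.rpow_le_rpow_of_exponent_le h4 (by linarith)
    _ = (s : ℝ) + 1 := Real.rpow_one _

/-- coefficients of the small part -/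
noncomputable def cs (k n : ℕ) : ℕ → ℝ := fun r => if r < 2 ^ n then 1 / ((k - r : ℕ) : ℝ) else 0

theorem cs_nonneg (k n r : ℕ) : 0 ≤ cs k n r := by
  unfold cs
  split_ifs
  · positivity
  · exact le_rfl

theorem cs_sum {k n : ℕ} (h : 2 ^ (n + 1) ≤ k) :
    ∑ r ∈ range (2 ^ n), cs k n r ≤ 2 ^ (n + 1) / k := by
  have hk : 0 < k := lt_of_lt_of_le (by positivity) h
  have hk' : (0 : ℝ) < k := by exact_mod_cast hk
  have h1 : ∑ r ∈ range (2 ^ n), cs k n r ≤ ∑ r ∈ range (2 ^ n), (2 : ℝ) / k := by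
    refine Finset.sum_le_sum fun r hr => ?_
    have hr' := mem_range.1 hr
    unfold cs
    rw [if_pos hr']
    rw [pow_succ] at h
    have h2 : k ≤ 2 * (k - r) := by omega
    have h3 : (k : ℝ) ≤ 2 * ((k - r : ℕ) : ℝ) := by exact_mod_cast h2
    have h4 : 0 < ((k - r : ℕ) : ℝ) := by
      have : 0 < k - r := by omega
      exact_mod_cast this
    rw [div_le_div_iff₀ h4 hk']
    linarith
  refine h1.trans (le_of_eq ?_)
  rw [sum_const, card_range, nsmul_eq_mul, pow_succ]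
  push_cast
  ring

theorem cs_block {k n : ℕ} (h : 2 ^ (n + 1) ≤ k) (s m : ℕ) :
    ∑ β ∈ range (2 ^ s), cs k n (2 ^ s * m + β) ≤ 2 ^ (n + 1) / k := by
  refine le_trans ?_ (cs_sum h)
  have h1 : ∑ β ∈ range (2 ^ s), cs k n (2 ^ s * m + β) ≤
      ∑ r ∈ range (2 ^ s * m + 2 ^ s), cs k n r := by
    rw [sum_range_add]
    have : 0 ≤ ∑ x ∈ range (2 ^ s * m), cs k n x := Finset.sum_nonneg fun r _ => cs_nonneg k n r
    linarith
  refine h1.trans ?_
  rcases le_total (2 ^ s * m + 2 ^ s) (2 ^ n) with h3 | h3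
  · apply Finset.sum_le_sum_of_subset_of_nonneg
    · intro r hr
      rw [mem_range] at *
      omega
    · intro r _ _
      exact cs_nonneg k n r
  · obtain ⟨d, hd⟩ := Nat.exists_eq_add_of_le h3
    rw [hd, sum_range_add]
    have : ∑ x ∈ range d, cs k n (2 ^ n + x) = 0 := by
      apply Finset.sum_eq_zero
      intro r _
      unfold cs
      rw [if_neg (by omega)]
    rw [this, add_zero]

theorem cs_p {p K : ℝ} (hp : 0 < p) (hp1 : p < 1)
    (hK : ∀ n : ℕ, ∑ s ∈ range n, ((2 : ℝ) ^ (p - 1)) ^ s * ((s : ℝ) + 1) ≤ K)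
    {k n : ℕ} (h : 2 ^ (n + 1) ≤ k) :
    av n (fun x => |T (cs k n) (2 ^ n) x| ^ p) ≤ ((2 : ℝ) ^ (n + 1) / k) ^ p * K := by
  have h1 := J_le hp hp1.le n (cs k n) (fun _ => 2 ^ (n + 1) / k) (2 ^ (n + 1) / k)
    (cs_nonneg k n) (cs_block h) (cs_sum h)
  refine h1.trans ?_
  have hS : (0 : ℝ) ≤ 2 ^ (n + 1) / k := by positivity
  rw [← Finset.sum_mul, mul_comm, mul_assoc, ← Real.rpow_add_of_nonneg hS (by positivity)
    (by positivity), add_halves, mul_comm]
  gcongr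
  refine le_trans (Finset.sum_le_sum fun s _ => ?_) (hK n)
  have : (0 : ℝ) ≤ s := by positivity
  have h2 : (0 : ℝ) ≤ ((2 : ℝ) ^ (p - 1)) ^ s := by positivity
  nlinarith

theorem abs_D_le (r : ℕ) (x : Pt) : |D r x| ≤ r := by
  unfold D
  refine (Finset.abs_sum_le_sum_abs _ _).trans ?_
  simp only [abs_W]
  simp

theorem cs_sup {k n : ℕ} (h : 2 ^ (n + 1) ≤ k) (x : Pt) :
    |T (cs k n) (2 ^ n) x| ≤ (2 : ℝ) ^ (n + 1) / k * 2 ^ n := by
  unfold T
  refine (Finset.abs_sum_le_sum_abs _ _).trans ?_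
  calc ∑ r ∈ range (2 ^ n), |cs k n r * D r x| ≤ ∑ r ∈ range (2 ^ n), cs k n r * 2 ^ n := by
        refine Finset.sum_le_sum fun r hr => ?_
        rw [abs_mul, abs_of_nonneg (cs_nonneg k n r)]
        have h1 := abs_D_le r x
        have h2 : (r : ℝ) ≤ 2 ^ n := by exact_mod_cast (mem_range.1 hr).le
        have h3 := cs_nonneg k n r
        gcongr
        linarith
    _ = (∑ r ∈ range (2 ^ n), cs k n r) * 2 ^ n := by rw [Finset.sum_mul]
    _ ≤ _ := by
        gcongr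
        exact cs_sum h

variable {E : Type*} [NormedAddCommGroup E]

section
variable [NormedSpace ℝ E]

/-- the logarithmic mean on level `M` -/
noncomputable def Lm (k M : ℕ) (h : Pt → E) (x : Pt) : E := (l k)⁻¹ • cv M (A k) h x

theorem Lm_add (k M : ℕ) (g h : Pt → E) (x : Pt) :
    Lm k M (fun t => g t + h t) x = Lm k M g x + Lm k M h x := by
  unfold Lm
  rw [cv_add_right, smul_add]

theorem Lm_sub (k M : ℕ) (g h : Pt → E) (x : Pt) :
    Lm k M (fun t => g t - h t) x = Lm k M g x - Lm k M h x := by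
  unfold Lm
  rw [cv_sub_right, smul_sub]

theorem cv_A (k M : ℕ) (h : Pt → E) (x : Pt) :
    cv M (A k) h x = ∑ r ∈ range k, (1 / ((k - r : ℕ) : ℝ)) • cv M (D r) h x := by
  have : A k = fun t => ∑ r ∈ range k, (1 / ((k - r : ℕ) : ℝ)) * D r t := by
    funext t
    unfold A
    exact Finset.sum_congr rfl fun r _ => mul_comm _ _
  rw [this, cv_sum_left]
  refine Finset.sum_congr rfl fun r _ => ?_
  rw [cv_smul_left]

theorem cv_T (n : ℕ) (c : ℕ → ℝ) (m : ℕ) (h : Pt → E) (x : Pt) :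
    cv n (T c m) h x = ∑ r ∈ range m, c r • cv n (D r) h x := by
  unfold T
  rw [cv_sum_left]
  refine Finset.sum_congr rfl fun r _ => ?_
  rw [cv_smul_left]

/-- the error for functions of a small level -/
theorem Lm_sub_self {k n M : ℕ} (h : 2 ^ (n + 1) ≤ k) (hk : k ≤ 2 ^ M) {g : Pt → E}
    (hg : Lev n g) (x : Pt) : Lm k M g x - g x =
      (l k)⁻¹ • (cv n (T (cs k n) (2 ^ n)) g x - (∑ r ∈ range (2 ^ n), cs k n r) • g x) := by
  have hnM : n ≤ M := by
    by_contra hcon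
    push Not at hcon
    have := Nat.pow_lt_pow_right (a := 2) (by norm_num) hcon
    rw [pow_succ] at h
    omega
  have hk0 : 0 < k := lt_of_lt_of_le (by positivity) h
  have hn : 2 ^ n ≤ k := by rw [pow_succ] at h; omega
  obtain ⟨d, hd⟩ := Nat.exists_eq_add_of_le hn
  have hl : l k ≠ 0 := (l_pos hk0).ne'
  have e1 : cv M (A k) g x = cv n (T (cs k n) (2 ^ n)) g x +
      (∑ r ∈ range d, 1 / ((k - (2 ^ n + r) : ℕ) : ℝ)) • g x := by
    rw [cv_A, cv_T]
    conv_lhs => rw [hd]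
    rw [sum_range_add, Finset.sum_smul]
    congr 1
    · refine Finset.sum_congr rfl fun r hr => ?_
      have hr' := mem_range.1 hr
      rw [av_cv_lev hnM (D_lev hr'.le) hg]
      unfold cs
      rw [if_pos hr', ← hd]
    · refine Finset.sum_congr rfl fun r hr => ?_
      rw [cv_D_ge hg (by omega) (by have := mem_range.1 hr; omega), ← hd]
  have e2 : l k = ∑ r ∈ range (2 ^ n), cs k n r +
      ∑ r ∈ range d, 1 / ((k - (2 ^ n + r) : ℕ) : ℝ) := by
    rw [← sum_inv_eq k]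
    conv_lhs => rw [hd]
    rw [sum_range_add]
    congr 1
    · refine Finset.sum_congr rfl fun r hr => ?_
      unfold cs
      rw [if_pos (mem_range.1 hr), ← hd]
    · refine Finset.sum_congr rfl fun r hr => ?_
      rw [← hd]
  have e3 : g x = (l k)⁻¹ • (l k • g x) := by rw [smul_smul, inv_mul_cancel₀ hl, one_smul]
  have e4 : l k • g x = (∑ r ∈ range (2 ^ n), cs k n r) • g x +
      (∑ r ∈ range d, 1 / ((k - (2 ^ n + r) : ℕ) : ℝ)) • g x := by
    conv_lhs => rw [e2]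
    rw [add_smul]
  have e5 : Lm k M g x - g x = (l k)⁻¹ • cv M (A k) g x - (l k)⁻¹ • (l k • g x) := by
    rw [← e3]
    rfl
  rw [e5, ← smul_sub, e1, e4]
  congr 1
  abel

theorem av_mono' {n : ℕ} {F G : Pt → ℝ} (h : ∀ x, F x ≤ G x) : av n F ≤ av n G := av_mono h

theorem norm_add_rpow_le {p : ℝ} (hp : 0 < p) (hp1 : p ≤ 1) (a b : E) :
    ‖a + b‖ ^ p ≤ ‖a‖ ^ p + ‖b‖ ^ p :=
  (Real.rpow_le_rpow (norm_nonneg _) (norm_add_le a b) hp.le).trans
    (Real.rpow_add_le_add_rpow (norm_nonneg _) (norm_nonneg _) hp.le hp1)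

theorem norm_sub_rpow_le {p : ℝ} (hp : 0 < p) (hp1 : p ≤ 1) (a b : E) :
    ‖a - b‖ ^ p ≤ ‖a‖ ^ p + ‖b‖ ^ p := by
  rw [sub_eq_add_neg, ← norm_neg b]
  exact norm_add_rpow_le hp hp1 a (-b)

/-- **Lemma E** -/
theorem Lm_err_p {p K : ℝ} (hp : 0 < p) (hp1 : p < 1)
    (hK : ∀ n : ℕ, ∑ s ∈ range n, ((2 : ℝ) ^ (p - 1)) ^ s * ((s : ℝ) + 1) ≤ K)
    {k n M : ℕ} (h : 2 ^ (n + 1) ≤ k) (hk : k ≤ 2 ^ M) {g : Pt → E} (hg : Lev n g) :
    av M (fun x => ‖Lm k M g x - g x‖ ^ p) ≤ (l k)⁻¹ ^ p * ((2 : ℝ) ^ (n + 1) / k) ^ p *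
      (((2 : ℝ) ^ n) ^ (1 - p) * K + 1) * av n (fun x => ‖g x‖ ^ p) := by
  have hnM : n ≤ M := by
    by_contra hcon
    push Not at hcon
    have := Nat.pow_lt_pow_right (a := 2) (by norm_num) hcon
    rw [pow_succ] at h
    omega
  have hk0 : 0 < k := lt_of_lt_of_le (by positivity) h
  have hl : 0 < l k := l_pos hk0
  set S : ℝ := (2 : ℝ) ^ (n + 1) / k with hS
  have hS0 : 0 ≤ S := by positivity
  have hs0 : 0 ≤ ∑ r ∈ range (2 ^ n), cs k n r := Finset.sum_nonneg fun r _ => cs_nonneg k n r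
  have hs := cs_sum h
  have h1 : ∀ x, ‖Lm k M g x - g x‖ ^ p ≤ (l k)⁻¹ ^ p *
      (‖cv n (T (cs k n) (2 ^ n)) g x‖ ^ p + S ^ p * ‖g x‖ ^ p) := by
    intro x
    rw [Lm_sub_self h hk hg, norm_smul, Real.mul_rpow (norm_nonneg _) (norm_nonneg _),
      Real.norm_of_nonneg (by positivity)]
    gcongr
    refine (norm_sub_rpow_le hp hp1.le _ _).trans ?_
    gcongr
    rw [norm_smul, Real.norm_of_nonneg hs0, Real.mul_rpow hs0 (norm_nonneg _)]
    gcongr
  have hT : Lev n (T (cs k n) (2 ^ n)) := by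
    intro x y hxy
    unfold T
    refine Finset.sum_congr rfl fun r hr => ?_
    rw [D_lev (mem_range.1 hr).le x y hxy]
  have hL : Lev n (fun x => (l k)⁻¹ ^ p *
      (‖cv n (T (cs k n) (2 ^ n)) g x‖ ^ p + S ^ p * ‖g x‖ ^ p)) := by
    intro x y hxy
    beta_reduce
    rw [hg x y hxy, cv_lev hT x y hxy]
  refine (av_mono' h1).trans ?_
  rw [av_lev n M _ hL hnM, av_mul, av_add, av_mul]
  have h2 := cv_p hp hp1.le n (T (cs k n) (2 ^ n)) g
  have h3 := cs_p hp hp1 hK h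
  have h4 : 0 ≤ av n (fun x => ‖g x‖ ^ p) := av_nonneg fun x => by positivity
  have h5 : av n (fun x => ‖cv n (T (cs k n) (2 ^ n)) g x‖ ^ p) ≤
      ((2 : ℝ) ^ n) ^ (1 - p) * (S ^ p * K) * av n (fun x => ‖g x‖ ^ p) := by
    refine h2.trans ?_
    gcongr
  calc (l k)⁻¹ ^ p * (av n (fun x => ‖cv n (T (cs k n) (2 ^ n)) g x‖ ^ p) +
          S ^ p * av n (fun x => ‖g x‖ ^ p)) ≤
        (l k)⁻¹ ^ p * (((2 : ℝ) ^ n) ^ (1 - p) * (S ^ p * K) * av n (fun x => ‖g x‖ ^ p) +
          S ^ p * av n (fun x => ‖g x‖ ^ p)) := by gcongr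
    _ = _ := by ring

/-- for all functions -/
theorem Lm_p {p K : ℝ} (hp : 0 < p) (hp1 : p < 1)
    (hK : ∀ n : ℕ, ∑ s ∈ range n, ((2 : ℝ) ^ (p - 1)) ^ s * ((s : ℝ) + 1) ≤ K)
    {k M : ℕ} (hk0 : 0 < k) (hk : k ≤ 2 ^ M) (g : Pt → E) :
    av M (fun x => ‖Lm k M g x‖ ^ p) ≤
      (l k)⁻¹ ^ (p / 2) * ((2 : ℝ) ^ M) ^ (1 - p) * K * av M (fun x => ‖g x‖ ^ p) := by
  have hl : 0 < l k := l_pos hk0
  have h1 : ∀ x, ‖Lm k M g x‖ ^ p = (l k)⁻¹ ^ p * ‖cv M (A k) g x‖ ^ p := by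
    intro x
    unfold Lm
    rw [norm_smul, Real.mul_rpow (norm_nonneg _) (norm_nonneg _),
      Real.norm_of_nonneg (by positivity)]
  simp only [h1]
  rw [av_mul]
  have h2 := cv_p hp hp1.le M (A k) g
  have h3 := A_p hp hp1 hK hk
  have h4 : 0 ≤ av M (fun x => ‖g x‖ ^ p) := av_nonneg fun x => by positivity
  have h5 : (l k)⁻¹ ^ p * l k ^ (p / 2) = (l k)⁻¹ ^ (p / 2) := by
    rw [Real.inv_rpow hl.le, Real.inv_rpow hl.le, ← div_eq_inv_mul,
      div_eq_iff (by positivity), ← div_eq_inv_mul, eq_div_iff (by positivity),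
      ← Real.rpow_add hl, add_halves]
  calc (l k)⁻¹ ^ p * av M (fun x => ‖cv M (A k) g x‖ ^ p) ≤
        (l k)⁻¹ ^ p * (((2 : ℝ) ^ M) ^ (1 - p) * (l k ^ (p / 2) * K) *
          av M (fun x => ‖g x‖ ^ p)) := by
        gcongr
        refine h2.trans ?_
        gcongr
    _ = ((l k)⁻¹ ^ p * l k ^ (p / 2)) * ((2 : ℝ) ^ M) ^ (1 - p) * K *
          av M (fun x => ‖g x‖ ^ p) := by ring
    _ = _ := by rw [h5]

/-- Lemma E for `p = 1`. -/
theorem Lm_err_one {k n M : ℕ} (h : 2 ^ (n + 1) ≤ k) (hk : k ≤ 2 ^ M) {g : Pt → E}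
    (hg : Lev n g) : av M (fun x => ‖Lm k M g x - g x‖) ≤
      (l k)⁻¹ * (2 ^ n + 1) * av n (fun x => ‖g x‖) := by
  have hnM : n ≤ M := by
    by_contra hcon
    push Not at hcon
    have := Nat.pow_lt_pow_right (a := 2) (by norm_num) hcon
    rw [pow_succ] at h
    omega
  have hk0 : 0 < k := lt_of_lt_of_le (by positivity) h
  have hk1 : (0 : ℝ) < k := by exact_mod_cast hk0
  have hl : 0 < l k := l_pos hk0
  have hS : (2 : ℝ) ^ (n + 1) / k ≤ 1 := by
    rw [div_le_one hk1]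
    exact_mod_cast h
  have hs0 : 0 ≤ ∑ r ∈ range (2 ^ n), cs k n r := Finset.sum_nonneg fun r _ => cs_nonneg k n r
  have hs := (cs_sum h).trans hS
  have h1 : ∀ x, ‖Lm k M g x - g x‖ ≤ (l k)⁻¹ *
      (‖cv n (T (cs k n) (2 ^ n)) g x‖ + ‖g x‖) := by
    intro x
    rw [Lm_sub_self h hk hg, norm_smul, Real.norm_of_nonneg (by positivity)]
    gcongr
    refine (norm_sub_le _ _).trans ?_
    gcongr
    rw [norm_smul, Real.norm_of_nonneg hs0]
    have := norm_nonneg (g x)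
    nlinarith
  have hT : Lev n (T (cs k n) (2 ^ n)) := by
    intro x y hxy
    unfold T
    refine Finset.sum_congr rfl fun r hr => ?_
    rw [D_lev (mem_range.1 hr).le x y hxy]
  have hL : Lev n (fun x => (l k)⁻¹ * (‖cv n (T (cs k n) (2 ^ n)) g x‖ + ‖g x‖)) := by
    intro x y hxy
    beta_reduce
    rw [hg x y hxy, cv_lev hT x y hxy]
  refine (av_mono' h1).trans ?_
  rw [av_lev n M _ hL hnM, av_mul, av_add]
  have h2 := cv_one n (T (cs k n) (2 ^ n)) g
  have h3 : av n (fun x => |T (cs k n) (2 ^ n) x|) ≤ 2 ^ n := by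
    have h4 : ∀ x, |T (cs k n) (2 ^ n) x| ≤ (2 : ℝ) ^ n := by
      intro x
      refine (cs_sup h x).trans ?_
      have : (0 : ℝ) < 2 ^ n := by positivity
      nlinarith
    refine (av_mono' h4).trans (le_of_eq (av_const n _))
  have h4 : 0 ≤ av n (fun x => ‖g x‖) := av_nonneg fun x => norm_nonneg _
  have h5 : av n (fun x => ‖cv n (T (cs k n) (2 ^ n)) g x‖) ≤ 2 ^ n * av n (fun x => ‖g x‖) := by
    refine h2.trans ?_
    gcongr
  rw [mul_assoc]
  gcongr
  linarith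

theorem markov (M : ℕ) (G : Pt → ℝ) (hG : ∀ x, 0 ≤ G x) {lam : ℝ} (hl : 0 < lam) :
    av M (fun x => if lam ≤ G x then (1 : ℝ) else 0) ≤ 1 / lam * av M G := by
  rw [← av_mul]
  apply av_mono'
  intro x
  split_ifs with h
  · rw [one_div, inv_mul_eq_div, le_div_iff₀ hl, one_mul]
    exact h
  · have := hG x
    positivity

end

section
variable [InnerProductSpace ℝ E]

/-- **uniform weak type (1,1)** -/
theorem Lm_weak {k M : ℕ} (hk0 : 0 < k) (hk : k < 2 ^ M) (h : Pt → E) {lam : ℝ} (hlam : 0 < lam) :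
    av M (fun x => if lam ≤ ‖Lm k M h x‖ then (1 : ℝ) else 0) ≤ 28 / lam * av M (fun x => ‖h x‖) := by
  obtain ⟨θ, Er, hθ, _, hav, heq⟩ := A_dec M k hk
  have hl : 0 < l k := l_pos hk0
  set θ' : ℕ → ℝ := fun j => (l k)⁻¹ * θ j with hθ'
  have hθ1 : ∀ j, |θ' j| ≤ 1 := by
    intro j
    have h0 : θ' j = θ j / l k := by
      rw [hθ']
      beta_reduce
      rw [inv_mul_eq_div]
    rw [h0, abs_of_nonneg (div_nonneg (hθ j).1 hl.le), div_le_one hl]
    exact (hθ j).2
  set H : Pt → E := fun t => W k t • h t with hH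
  have hHn : av M (fun x => ‖H x‖) = av M (fun x => ‖h x‖) := by
    congr 1
    funext x
    rw [hH]
    beta_reduce
    rw [norm_smul, Real.norm_eq_abs, abs_W, one_mul]
  have e1 : ∀ x, Lm k M h x = W k x • cv M (Kth θ' M) H x + (l k)⁻¹ • cv M Er h x := by
    intro x
    have e2 : cv M (A k) h x = cv M (fun t => W k t * Kth θ M t) h x + cv M Er h x := by
      rw [← cv_add_left]
      congr 1
      funext t
      exact heq t
    have e3 : cv M (fun t => W k t * Kth θ M t) h x = W k x • cv M (Kth θ M) H x := by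
      unfold cv
      rw [← av_smul]
      congr 1
      funext t
      beta_reduce
      rw [W_xr, hH]
      beta_reduce
      rw [smul_smul, smul_smul]
      congr 1
      ring
    have e4 : Kth θ' M = fun t => (l k)⁻¹ * Kth θ M t := by
      funext t
      unfold Kth
      rw [Finset.mul_sum]
      refine Finset.sum_congr rfl fun j _ => ?_
      rw [hθ']
      ring
    unfold Lm
    rw [e2, e3, e4, cv_smul_left, smul_add, smul_comm]
  have h1 := weak_type M θ' hθ1 H (half_pos hlam)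
  have h2 := markov M (fun x => ‖(l k)⁻¹ • cv M Er h x‖) (fun x => norm_nonneg _) (half_pos hlam)
  have h3 : av M (fun x => ‖(l k)⁻¹ • cv M Er h x‖) ≤ 12 * av M (fun x => ‖h x‖) := by
    have e5 : ∀ x, ‖(l k)⁻¹ • cv M Er h x‖ = (l k)⁻¹ * ‖cv M Er h x‖ := by
      intro x
      rw [norm_smul, Real.norm_of_nonneg (by positivity)]
    simp only [e5]
    rw [av_mul]
    have h4 := cv_one M Er h
    have h5 : 0 ≤ av M (fun x => ‖h x‖) := av_nonneg fun x => norm_nonneg _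
    calc (l k)⁻¹ * av M (fun x => ‖cv M Er h x‖) ≤
          (l k)⁻¹ * (12 * l k * av M (fun x => ‖h x‖)) := by
          gcongr
          refine h4.trans ?_
          gcongr
      _ = _ := by
          field_simp
  have h4 : ∀ x, (if lam ≤ ‖Lm k M h x‖ then (1 : ℝ) else 0) ≤
      (if lam / 2 ≤ ‖cv M (Kth θ' M) H x‖ then (1 : ℝ) else 0) +
      (if lam / 2 ≤ ‖(l k)⁻¹ • cv M Er h x‖ then (1 : ℝ) else 0) := by
    intro x
    by_cases h5 : lam ≤ ‖Lm k M h x‖
    · rw [if_pos h5]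
      by_cases h6 : lam / 2 ≤ ‖cv M (Kth θ' M) H x‖
      · rw [if_pos h6]
        split_ifs <;> norm_num
      · have h7 : lam / 2 ≤ ‖(l k)⁻¹ • cv M Er h x‖ := by
          push Not at h6
          rw [e1] at h5
          have h8 := norm_add_le (W k x • cv M (Kth θ' M) H x) ((l k)⁻¹ • cv M Er h x)
          rw [norm_smul (W k x), Real.norm_eq_abs, abs_W, one_mul] at h8
          linarith
        rw [if_neg h6, if_pos h7]
        norm_num
    · rw [if_neg h5]
      split_ifs <;> norm_num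
  refine (av_mono' h4).trans ?_
  rw [av_add]
  rw [hHn] at h1
  have h5 : 0 ≤ av M (fun x => ‖h x‖) := av_nonneg fun x => norm_nonneg _
  have h6 : 1 / (lam / 2) * av M (fun x => ‖(l k)⁻¹ • cv M Er h x‖) ≤
      1 / (lam / 2) * (12 * av M (fun x => ‖h x‖)) := by gcongr
  have e6 : 28 / lam * av M (fun x => ‖h x‖) = 2 / (lam / 2) * av M (fun x => ‖h x‖) +
      1 / (lam / 2) * (12 * av M (fun x => ‖h x‖)) := by
    field_simp
    ring
  rw [e6]
  linarith

end

end Pool.Agent.X23.WL
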