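import Pool.Agent.X23.WL.Fin

/-!
# The Haar measure, martingales, coefficients and the logarithmic means
-/

set_option autoImplicit false

open Finset Filter Topology MeasureTheory
open scoped ENNReal

namespace Pool.Agent.X23.WL

/-- The product Haar probability measure. -/
noncomputable def mu : Measure Pt :=
  Measure.infinitePi fun _ : ℕ => (PMF.uniformOfFintype Bool).toMeasure

/-- Martingales with respect to the dyadic filtration: `f n` depends on the first `n` coordinates
only, and its value is the mean value of `f (n + 1)` over the two choices of coordinate `n`. -/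
def IsMart (f : ℕ → Pt → ℂ) : Prop :=
  ∀ n, (∀ x y : Pt, (∀ j < n, x j = y j) → f n x = f n y) ∧
    ∀ x, f n x = (f (n + 1) (Function.update x n false) + f (n + 1) (Function.update x n true)) / 2

/-- `c` is the sequence of the Fourier coefficients of the martingale `f`. -/
def IsCoef (f : ℕ → Pt → ℂ) (c : ℕ → ℂ) : Prop :=
  ∀ i, Tendsto (fun k => ∫ x, f k x * W i x ∂mu) atTop (𝓝 (c i))

/-- The Nörlund logarithmic means of the Walsh series with coefficients `c`. -/
noncomputable def L (c : ℕ → ℂ) (n : ℕ) (x : Pt) : ℂ :=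
  1 / l n * ∑ k ∈ range n, (∑ i ∈ range k, c i * W i x) / (n - k)

/-- `F` is the almost everywhere limit of `f`. -/
def IsLim (f : ℕ → Pt → ℂ) (F : Pt → ℂ) : Prop :=
  ∀ᵐ x ∂mu, Tendsto (fun n => f n x) atTop (𝓝 (F x))

/-- The `H_p` quasi-norm `‖f*‖_p`. -/
noncomputable def hN (p : ℝ) (f : ℕ → Pt → ℂ) : ℝ≥0∞ :=
  (∫⁻ x, (⨆ n, ‖f n x‖ₑ) ^ p ∂mu) ^ (1 / p)

/-- The weak-`L_p` quasi-norm. -/
noncomputable def wN (p : ℝ) (G : Pt → ℂ) : ℝ≥0∞ :=
  (⨆ (t : ℝ) (_ : 0 < t), ENNReal.ofReal (t ^ p) * mu {x | t < ‖G x‖}) ^ (1 / p)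

instance : IsProbabilityMeasure mu := by
  unfold mu
  infer_instance

/-- cylinders -/
def cyl (n : ℕ) (b : Pt) : Set Pt := {x | ∀ j < n, x j = b j}

theorem cyl_eq (n : ℕ) (b : Pt) : cyl n b = Set.pi (Finset.range n) (fun j => {b j}) := by
  ext x
  simp [cyl]

theorem cyl_meas (n : ℕ) (b : Pt) : MeasurableSet (cyl n b) := by
  rw [cyl_eq]
  exact MeasurableSet.pi (Set.to_countable _) fun _ _ => measurableSet_singleton _

theorem mu_cyl (n : ℕ) (b : Pt) : mu (cyl n b) = ((2 : ℝ≥0∞) ^ n)⁻¹ := by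
  rw [cyl_eq, mu, Measure.infinitePi_pi _ (fun _ _ => measurableSet_singleton _)]
  have : ∀ j, (PMF.uniformOfFintype Bool).toMeasure {b j} = (2 : ℝ≥0∞)⁻¹ := by
    intro j
    rw [PMF.toMeasure_apply_singleton _ _ (measurableSet_singleton _),
      PMF.uniformOfFintype_apply]
    simp
  simp only [this]
  rw [prod_const, card_range, ENNReal.inv_pow]

theorem tb_false {n a : ℕ} (ha : a < 2 ^ n) :
    Nat.testBit a = Function.update (Nat.testBit a) n false := by
  funext j
  by_cases h : j = n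
  · subst h
    rw [Function.update_self]
    exact Nat.testBit_lt_two_pow ha
  · rw [Function.update_of_ne h]

theorem tb_true {n a : ℕ} (ha : a < 2 ^ n) :
    Nat.testBit (2 ^ n + a) = Function.update (Nat.testBit a) n true := by
  funext j
  rcases lt_trichotomy j n with h | h | h
  · rw [Function.update_of_ne h.ne, Nat.testBit_two_pow_add_gt h]
  · subst h
    rw [Function.update_self, Nat.testBit_two_pow_add_eq, Nat.testBit_lt_two_pow ha]
    rfl
  · rw [Function.update_of_ne h.ne']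
    have h1 : 2 ^ (n + 1) ≤ 2 ^ j := Nat.pow_le_pow_right (by norm_num) h
    have h2 : 2 ^ (n + 1) = 2 ^ n + 2 ^ n := by ring
    rw [Nat.testBit_lt_two_pow (by omega), Nat.testBit_lt_two_pow (by omega)]

/-- the number with the binary digits `x` -/
def nb : ℕ → Pt → ℕ
  | 0, _ => 0
  | n + 1, x => if x n then 2 ^ n + nb n x else nb n x

theorem nb_lt (n : ℕ) (x : Pt) : nb n x < 2 ^ n := by
  induction n with
  | zero => simp [nb]
  | succ n ih =>
    rw [nb, pow_succ]
    split_ifs <;> omega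

theorem nb_testBit (n : ℕ) (x : Pt) : ∀ j < n, x j = (nb n x).testBit j := by
  induction n with
  | zero => intro j hj; omega
  | succ n ih =>
    intro j hj
    rw [nb]
    split_ifs with h
    · rw [tb_true (nb_lt n x)]
      by_cases hjn : j = n
      · subst hjn
        rw [Function.update_self]
        exact h
      · rw [Function.update_of_ne hjn]
        exact ih j (by omega)
    · rw [tb_false (nb_lt n x)]
      by_cases hjn : j = n
      · subst hjn
        rw [Function.update_self]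
        simpa using h
      · rw [Function.update_of_ne hjn]
        exact ih j (by omega)

theorem eq_nb {n a : ℕ} {x : Pt} (ha : a < 2 ^ n) (hx : x ∈ cyl n (Nat.testBit a)) :
    a = nb n x := by
  apply Nat.eq_of_testBit_eq
  intro j
  by_cases hj : j < n
  · rw [← nb_testBit n x j hj, hx j hj]
  · have h1 : 2 ^ n ≤ 2 ^ j := Nat.pow_le_pow_right (by norm_num) (by omega)
    rw [Nat.testBit_lt_two_pow (lt_of_lt_of_le ha h1),
      Nat.testBit_lt_two_pow (lt_of_lt_of_le (nb_lt n x) h1)]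

theorem dec {A : Type*} [AddCommMonoid A] {n : ℕ} {φ : Pt → A} (h : Lev n φ) (x : Pt) :
    φ x = ∑ a ∈ range (2 ^ n),
      (cyl n (Nat.testBit a)).indicator (fun _ => φ (Nat.testBit a)) x := by
  rw [Finset.sum_eq_single (nb n x)]
  · rw [Set.indicator_of_mem (show x ∈ cyl n (Nat.testBit (nb n x)) from nb_testBit n x)]
    exact h x _ (nb_testBit n x)
  · intro a ha hne
    apply Set.indicator_of_notMem
    intro hx
    exact hne (eq_nb (mem_range.1 ha) hx)
  · intro hn
    exact absurd (mem_range.2 (nb_lt n x)) hn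

theorem Lev.meas {A : Type*} [MeasurableSpace A] {n : ℕ} {φ : Pt → A} (h : Lev n φ) :
    Measurable φ := by
  intro s _
  have : φ ⁻¹' s = ⋃ a ∈ {a | a < 2 ^ n ∧ φ (Nat.testBit a) ∈ s}, cyl n (Nat.testBit a) := by
    ext x
    simp only [Set.mem_preimage, Set.mem_iUnion, Set.mem_setOf_eq, exists_prop]
    constructor
    · intro hx
      refine ⟨nb n x, ⟨nb_lt n x, ?_⟩, nb_testBit n x⟩
      rwa [← h x _ (nb_testBit n x)]
    · rintro ⟨a, ⟨_, ha⟩, hx⟩
      rwa [h x _ hx]
  rw [this]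
  exact MeasurableSet.biUnion (Set.to_countable _) fun a _ => cyl_meas _ _

theorem lint_lev {n : ℕ} {φ : Pt → ℝ≥0∞} (h : Lev n φ) :
    ∫⁻ x, φ x ∂mu = ∑ a ∈ range (2 ^ n), φ (Nat.testBit a) * ((2 : ℝ≥0∞) ^ n)⁻¹ := by
  have h1 : ∫⁻ x, φ x ∂mu = ∫⁻ x, ∑ a ∈ range (2 ^ n),
      (cyl n (Nat.testBit a)).indicator (fun _ => φ (Nat.testBit a)) x ∂mu :=
    lintegral_congr fun x => dec h x
  rw [h1, lintegral_finsetSum _ fun a _ => measurable_const.indicator (cyl_meas _ _)]
  refine Finset.sum_congr rfl fun a _ => ?_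
  rw [lintegral_indicator_const (cyl_meas _ _), mu_cyl]

theorem int_lev {n : ℕ} {φ : Pt → ℂ} (h : Lev n φ) : ∫ x, φ x ∂mu = av n φ := by
  have h1 : ∫ x, φ x ∂mu = ∫ x, ∑ a ∈ range (2 ^ n),
      (cyl n (Nat.testBit a)).indicator (fun _ => φ (Nat.testBit a)) x ∂mu :=
    integral_congr_ae (Eventually.of_forall fun x => dec h x)
  rw [h1, integral_finsetSum _ fun a _ => (integrable_const _).indicator (cyl_meas _ _)]
  unfold av
  rw [Finset.smul_sum]
  refine Finset.sum_congr rfl fun a _ => ?_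
  rw [integral_indicator_const _ (cyl_meas _ _)]
  congr 1
  rw [measureReal_def, mu_cyl, ENNReal.toReal_inv, ENNReal.toReal_pow]
  simp

theorem lint_ofReal {n : ℕ} {φ : Pt → ℝ} (h : Lev n φ) (h0 : ∀ x, 0 ≤ φ x) :
    ∫⁻ x, ENNReal.ofReal (φ x) ∂mu = ENNReal.ofReal (av n φ) := by
  have h1 : Lev n fun x => ENNReal.ofReal (φ x) := by
    intro x y hxy
    beta_reduce
    rw [h x y hxy]
  rw [lint_lev h1, ← Finset.sum_mul, ← ENNReal.ofReal_sum_of_nonneg fun a _ => h0 _]
  unfold av
  rw [smul_eq_mul, mul_comm, ENNReal.ofReal_mul (by positivity), ENNReal.ofReal_inv_of_pos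
    (by positivity), ENNReal.ofReal_pow (by norm_num)]
  congr 3
  simp

theorem mu_lev {n : ℕ} {φ : Pt → ℝ} (h : Lev n φ) (t : ℝ) :
    mu {x | t ≤ φ x} = ENNReal.ofReal (av n (fun x => if t ≤ φ x then (1 : ℝ) else 0)) := by
  have h1 : Lev n fun x => if t ≤ φ x then (1 : ℝ) else 0 := by
    intro x y hxy
    beta_reduce
    rw [h x y hxy]
  have h2 : MeasurableSet {x | t ≤ φ x} := h.meas measurableSet_Ici
  rw [← lint_ofReal h1 (fun x => by split_ifs <;> norm_num), ← lintegral_indicator_one h2]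
  apply lintegral_congr
  intro x
  by_cases hx : t ≤ φ x
  · rw [Set.indicator_of_mem (by exact hx), if_pos hx]
    simp
  · rw [Set.indicator_of_notMem (by exact hx), if_neg hx]
    simp

theorem av_last {E : Type*} [NormedAddCommGroup E] [NormedSpace ℝ E] (n : ℕ) (F : Pt → E) :
    av (n + 1) F = (1 / 2 : ℝ) • (av n (fun x => F (Function.update x n false)) +
      av n (fun x => F (Function.update x n true))) := by
  unfold av
  rw [show (2 : ℕ) ^ (n + 1) = 2 ^ n + 2 ^ n by ring, sum_range_add, ← smul_add, smul_smul]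
  congr 1
  · rw [pow_succ]
    field_simp
  · congr 1
    · refine Finset.sum_congr rfl fun a ha => ?_
      beta_reduce
      rw [← tb_false (mem_range.1 ha)]
    · refine Finset.sum_congr rfl fun a ha => ?_
      rw [tb_true (mem_range.1 ha)]

theorem W_update {i n : ℕ} (hi : i < 2 ^ n) (x : Pt) (b : Bool) :
    W i (Function.update x n b) = W i x := by
  apply W_lev hi
  intro j hj
  rw [Function.update_of_ne hj.ne]

theorem four_succ {f : ℕ → Pt → ℂ} (hf : IsMart f) {i n : ℕ} (hi : i < 2 ^ n) :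
    four (n + 1) (f (n + 1)) i = four n (f n) i := by
  unfold four
  rw [av_last, ← av_add, ← av_smul]
  congr 1
  funext x
  rw [W_update hi, W_update hi, (hf n).2 x, ← smul_add, smul_comm]
  congr 1
  rw [Complex.real_smul]
  push_cast
  ring

theorem four_stable {f : ℕ → Pt → ℂ} (hf : IsMart f) {i n m : ℕ} (hi : i < 2 ^ n) (hnm : n ≤ m) :
    four m (f m) i = four n (f n) i := by
  induction m, hnm using Nat.le_induction with
  | base => rfl
  | succ m hm ih =>
    rw [four_succ hf (lt_of_lt_of_le hi (Nat.pow_le_pow_right (by norm_num) hm)), ih]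

theorem IsMart.lev {f : ℕ → Pt → ℂ} (hf : IsMart f) (n : ℕ) : Lev n (f n) := (hf n).1

theorem int_four {f : ℕ → Pt → ℂ} (hf : IsMart f) {i n : ℕ} (hi : i < 2 ^ n) :
    ∫ x, f n x * W i x ∂mu = four n (f n) i := by
  have h1 : Lev n fun x => f n x * (W i x : ℂ) := by
    intro x y hxy
    beta_reduce
    rw [hf.lev n x y hxy, W_lev hi x y hxy]
  rw [int_lev h1]
  unfold four
  congr 1
  funext x
  rw [Complex.real_smul, mul_comm]

theorem coef_tendsto {f : ℕ → Pt → ℂ} (hf : IsMart f) {i n : ℕ} (hi : i < 2 ^ n) :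
    Tendsto (fun k => ∫ x, f k x * W i x ∂mu) atTop (𝓝 (four n (f n) i)) := by
  apply tendsto_const_nhds.congr'
  filter_upwards [eventually_ge_atTop n] with k hk
  rw [int_four hf (lt_of_lt_of_le hi (Nat.pow_le_pow_right (by norm_num) hk)),
    four_stable hf hi hk]

theorem exists_coef {f : ℕ → Pt → ℂ} (hf : IsMart f) : ∃ c, IsCoef f c :=
  ⟨fun i => four i (f i) i, fun _ => coef_tendsto hf Nat.lt_two_pow_self⟩

theorem coef_eq {f : ℕ → Pt → ℂ} (hf : IsMart f) {c : ℕ → ℂ} (hc : IsCoef f c) {i n : ℕ}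
    (hi : i < 2 ^ n) : c i = four n (f n) i :=
  tendsto_nhds_unique (hc i) (coef_tendsto hf hi)

theorem L_eq {f : ℕ → Pt → ℂ} (hf : IsMart f) {c : ℕ → ℂ} (hc : IsCoef f c) {k M : ℕ}
    (hk : k ≤ 2 ^ M) (x : Pt) : L c k x = Lm k M (f M) x := by
  unfold L Lm
  rw [cv_A, Complex.real_smul]
  have e1 : (1 : ℂ) / (l k : ℂ) = (((l k)⁻¹ : ℝ) : ℂ) := by
    push_cast
    rw [one_div]
  rw [e1]
  congr 1
  refine Finset.sum_congr rfl fun r hr => ?_
  have hr' := mem_range.1 hr
  have e2 : cv M (D r) (f M) x = ∑ i ∈ range r, c i * W i x := by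
    have e3 : D r = fun t => ∑ i ∈ range r, W i t := rfl
    rw [e3, cv_sum_left]
    refine Finset.sum_congr rfl fun i hi => ?_
    have hi' := mem_range.1 hi
    rw [cv_W, coef_eq hf hc (show i < 2 ^ M by omega), Complex.real_smul, mul_comm]
  rw [e2, Complex.real_smul]
  push_cast [Nat.cast_sub hr'.le]
  ring

end Pool.Agent.X23.WL
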