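import Pool.Agent.X23.WL.Conv

/-!
# Weak type (1,1) of martingale transforms (Burkholder's function)
-/

set_option autoImplicit false

open Finset
open scoped InnerProductSpace

namespace Pool.Agent.X23.WL

variable {E : Type*} [NormedAddCommGroup E] [InnerProductSpace ℝ E]

/-- Burkholder's function -/
noncomputable def Ub (x y : E) : ℝ := if ‖x‖ + ‖y‖ < 1 then ‖y‖ ^ 2 - ‖x‖ ^ 2 else 1 - 2 * ‖x‖

theorem Ub_le1 (x y : E) : Ub x y ≤ 1 - 2 * ‖x‖ := by
  unfold Ub
  split_ifs with h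
  · have h1 := norm_nonneg y
    nlinarith
  · exact le_rfl

theorem Ub_le2 {x : E} (hx : ‖x‖ ≤ 1) (y : E) : Ub x y ≤ ‖y‖ ^ 2 - ‖x‖ ^ 2 := by
  unfold Ub
  split_ifs with h
  · exact le_rfl
  · push Not at h
    nlinarith

theorem Ub_tangent {x y a b : E} (h : ‖x‖ + ‖y‖ < 1) (hab : ‖b‖ ≤ ‖a‖) :
    Ub (x + a) (y + b) ≤ ‖y‖ ^ 2 - ‖x‖ ^ 2 + 2 * ⟪y, b⟫_ℝ - 2 * ⟪x, a⟫_ℝ := by
  have hX := norm_add_sq_real x a
  have hY := norm_add_sq_real y b
  have ha := norm_nonneg a
  have hb := norm_nonneg b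
  have hx := norm_nonneg x
  have hy := norm_nonneg y
  by_cases h1 : ‖x + a‖ ≤ 1
  · have h2 := Ub_le2 h1 (y + b)
    nlinarith
  · push Not at h1
    have h2 := Ub_le1 (x + a) (y + b)
    have h3 : -(‖y‖ * ‖b‖) ≤ ⟪y, b⟫_ℝ := by
      have := abs_real_inner_le_norm y b
      have := (abs_le.1 this).1
      exact this
    have h4 : ‖y‖ * ‖b‖ ≤ ‖y‖ * ‖a‖ := by gcongr
    have h5 := norm_add_le x a
    nlinarith

theorem Ub_mid {x y a b : E} (hab : ‖b‖ ≤ ‖a‖) :
    Ub (x + a) (y + b) + Ub (x - a) (y - b) ≤ 2 * Ub x y := by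
  by_cases h : ‖x‖ + ‖y‖ < 1
  · have h1 := Ub_tangent h hab
    have h2 := Ub_tangent (a := -a) (b := -b) h (by rwa [norm_neg, norm_neg])
    rw [inner_neg_right, inner_neg_right, ← sub_eq_add_neg, ← sub_eq_add_neg] at h2
    have h3 : Ub x y = ‖y‖ ^ 2 - ‖x‖ ^ 2 := by unfold Ub; rw [if_pos h]
    linarith
  · have h1 := Ub_le1 (x + a) (y + b)
    have h2 := Ub_le1 (x - a) (y - b)
    have h3 : Ub x y = 1 - 2 * ‖x‖ := by unfold Ub; rw [if_neg h]
    have h4 : 2 * ‖x‖ ≤ ‖x + a‖ + ‖x - a‖ := by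
      have := norm_add_le (x + a) (x - a)
      rwa [show x + a + (x - a) = (2 : ℝ) • x by rw [two_smul]; abel, norm_smul,
        Real.norm_ofNat] at this
    linarith

theorem V_le_Ub (x y : E) : (if 1 ≤ ‖y‖ then (1 : ℝ) else 0) - 2 * ‖x‖ ≤ Ub x y := by
  have hx := norm_nonneg x
  have hy := norm_nonneg y
  unfold Ub
  split_ifs with h1 h2 h2
  · linarith
  · linarith
  · nlinarith
  · linarith

theorem Ub_zero_le (x : E) : Ub x 0 ≤ 0 := by
  have hx := norm_nonneg x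
  unfold Ub
  rw [norm_zero]
  split_ifs with h1
  · nlinarith
  · linarith

/-- martingale transforms -/
noncomputable def Tr : ℕ → (ℕ → ℝ) → (Pt → E) → Pt → E
  | 0, _, _, _ => 0
  | M + 1, θ, H, x => θ 0 • (av M (fun t => H (cons (x 0) t)) - av (M + 1) H) +
      Tr M (fun j => θ (j + 1)) (fun t => H (cons (x 0) t)) (tl x)

theorem weak_aux (M : ℕ) : ∀ (θ : ℕ → ℝ) (H : Pt → E) (y : E), (∀ j, |θ j| ≤ 1) →
    av M (fun x => if 1 ≤ ‖y + Tr M θ H x‖ then (1 : ℝ) else 0) - 2 * av M (fun x => ‖H x‖) ≤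
      Ub (av M H) y := by
  induction M with
  | zero =>
    intro θ H y _
    rw [av_zero, av_zero, av_zero]
    unfold Tr
    rw [add_zero]
    exact V_le_Ub _ _
  | succ M ih =>
    intro θ H y hθ
    set Hf : Pt → E := fun t => H (cons false t) with hHf
    set Ht : Pt → E := fun t => H (cons true t) with hHt
    set a : E := (1 / 2 : ℝ) • (av M Hf - av M Ht) with ha
    have e0 : av (M + 1) H = (1 / 2 : ℝ) • (av M Hf + av M Ht) := av_succ M H
    have ef : av M Hf - av (M + 1) H = a := by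
      rw [e0, ha]
      module
    have et : av M Ht - av (M + 1) H = -a := by
      rw [e0, ha]
      module
    have h1 := ih (fun j => θ (j + 1)) Hf (y + θ 0 • a) fun j => hθ _
    have h2 := ih (fun j => θ (j + 1)) Ht (y - θ 0 • a) fun j => hθ _
    have h3 : Ub (av M Hf) (y + θ 0 • a) + Ub (av M Ht) (y - θ 0 • a) ≤
        2 * Ub (av (M + 1) H) y := by
      have e1 : av M Hf = av (M + 1) H + a := by rw [← ef]; abel
      have e2 : av M Ht = av (M + 1) H - a := by
        have : av M Ht = av (M + 1) H + (av M Ht - av (M + 1) H) := by abel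
        rw [this, et]; abel
      rw [e1, e2]
      apply Ub_mid
      rw [norm_smul, Real.norm_eq_abs]
      calc |θ 0| * ‖a‖ ≤ 1 * ‖a‖ := by gcongr; exact hθ 0
        _ = ‖a‖ := one_mul _
    have hTf : ∀ x : Pt, y + Tr (M + 1) θ H (cons false x) =
        y + θ 0 • a + Tr M (fun j => θ (j + 1)) Hf x := by
      intro x
      have : Tr (M + 1) θ H (cons false x) = θ 0 • (av M Hf - av (M + 1) H) +
        Tr M (fun j => θ (j + 1)) Hf x := rfl
      rw [this, ef, add_assoc]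
    have hTt : ∀ x : Pt, y + Tr (M + 1) θ H (cons true x) =
        y - θ 0 • a + Tr M (fun j => θ (j + 1)) Ht x := by
      intro x
      have : Tr (M + 1) θ H (cons true x) = θ 0 • (av M Ht - av (M + 1) H) +
        Tr M (fun j => θ (j + 1)) Ht x := rfl
      rw [this, et, smul_neg]
      abel
    rw [av_succ M (fun x => if 1 ≤ ‖y + Tr (M + 1) θ H x‖ then (1 : ℝ) else 0),
      av_succ M (fun x => ‖H x‖), smul_eq_mul, smul_eq_mul]
    simp only [hTf, hTt]
    change 1 / 2 * (_ + _) - 2 * (1 / 2 * (av M (fun x => ‖Hf x‖) + av M (fun x => ‖Ht x‖))) ≤ _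
    linarith

/-- the kernel of the transform -/
noncomputable def Kth (θ : ℕ → ℝ) (M : ℕ) (x : Pt) : ℝ :=
  ∑ j ∈ range M, θ j * (D (2 ^ (j + 1)) x - D (2 ^ j) x)

theorem Kth_succ (θ : ℕ → ℝ) (M : ℕ) (x : Pt) : Kth θ (M + 1) x =
    θ 0 * sg (x 0) + (1 + sg (x 0)) * Kth (fun j => θ (j + 1)) M (tl x) := by
  unfold Kth
  rw [sum_range_succ', Finset.mul_sum, add_comm]
  congr 1
  · rw [D_two_pow_succ, pow_zero, D_one, D_one]
    ring
  · refine Finset.sum_congr rfl fun j _ => ?_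
    rw [D_two_pow_succ (j + 1) x, D_two_pow_succ j x]
    ring

theorem cv_Kth (M : ℕ) : ∀ (θ : ℕ → ℝ) (H : Pt → E) (x : Pt),
    cv M (Kth θ M) H x = Tr M θ H x := by
  induction M with
  | zero =>
    intro θ H x
    unfold cv Kth Tr
    simp only [range_zero, sum_empty, zero_smul]
    exact av_const _ _
  | succ M ih =>
    intro θ H x
    have e : ∀ b : Bool, av M (fun t => Kth θ (M + 1) (xr x (cons b t)) • H (cons b t)) =
        (θ 0 * sg (xor (x 0) b)) • av M (fun t => H (cons b t)) +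
        (1 + sg (xor (x 0) b)) • Tr M (fun j => θ (j + 1)) (fun t => H (cons b t)) (tl x) := by
      intro b
      rw [← ih]
      unfold cv
      rw [← av_smul, ← av_smul, ← av_add]
      congr 1
      funext t
      rw [Kth_succ, add_smul, mul_smul (1 + _)]
      rfl
    unfold cv
    rw [av_succ, e, e]
    have hT : Tr (M + 1) θ H x = θ 0 • (av M (fun t => H (cons (x 0) t)) - av (M + 1) H) +
      Tr M (fun j => θ (j + 1)) (fun t => H (cons (x 0) t)) (tl x) := rfl
    rw [hT, av_succ]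
    cases x 0
    · rw [Bool.xor_false, Bool.false_xor, sg_false, sg_true]
      module
    · rw [Bool.xor_false, Bool.xor_self, sg_false, sg_true]
      module

theorem cv_smul_right (n : ℕ) (c : ℝ) (K : Pt → ℝ) (g : Pt → E) (x : Pt) :
    cv n K (fun t => c • g t) x = c • cv n K g x := by
  unfold cv
  rw [← av_smul]
  congr 1
  funext t
  rw [smul_comm]

theorem weak_type (M : ℕ) (θ : ℕ → ℝ) (hθ : ∀ j, |θ j| ≤ 1) (H : Pt → E) {lam : ℝ}
    (hl : 0 < lam) :
    av M (fun x => if lam ≤ ‖cv M (Kth θ M) H x‖ then (1 : ℝ) else 0) ≤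
      2 / lam * av M (fun x => ‖H x‖) := by
  have h1 := weak_aux M θ (fun t => lam⁻¹ • H t) 0 hθ
  have h2 := Ub_zero_le (av M fun t => lam⁻¹ • H t)
  have e1 : ∀ x, (if 1 ≤ ‖(0 : E) + Tr M θ (fun t => lam⁻¹ • H t) x‖ then (1 : ℝ) else 0) =
      if lam ≤ ‖cv M (Kth θ M) H x‖ then (1 : ℝ) else 0 := by
    intro x
    rw [zero_add, ← cv_Kth, cv_smul_right, norm_smul, norm_inv, Real.norm_of_nonneg hl.le]
    congr 1
    rw [inv_mul_eq_div, le_div_iff₀ hl, one_mul]
  have e2 : av M (fun x => ‖lam⁻¹ • H x‖) = lam⁻¹ * av M (fun x => ‖H x‖) := by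
    rw [← av_mul]
    congr 1
    funext x
    rw [norm_smul, norm_inv, Real.norm_of_nonneg hl.le]
  simp only [e1] at h1
  rw [e2] at h1
  have : 2 / lam * av M (fun x => ‖H x‖) = 2 * (lam⁻¹ * av M (fun x => ‖H x‖)) := by ring
  rw [this]
  linarith

end Pool.Agent.X23.WL
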